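import Mathlib

/-!
Exponential supermartingale inequality for a uniformly random ordering of a finite set,
by swapping positions.
-/

namespace Q43.Ko
open Finset

set_option linter.unusedSectionVars false

variable {N : ℕ} {E : Type*} [Fintype E] [DecidableEq E]

/-- The ordering with the positions `j` and `k` exchanged. -/
def sw (j k : Fin N) (σ : Fin N ≃ E) : Fin N ≃ E := (Equiv.swap j k).trans σ

lemma sw_lt {i j k : Fin N} (hij : i < j) (hjk : j ≤ k) (σ : Fin N ≃ E) : sw j k σ i = σ i := by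
  simp [sw, Equiv.swap_apply_of_ne_of_ne (ne_of_lt hij) (ne_of_lt (lt_of_lt_of_le hij hjk))]

lemma sw_self (j k : Fin N) (σ : Fin N ≃ E) : sw j k σ j = σ k := by simp [sw]

lemma sw_sw (j k : Fin N) (σ : Fin N ≃ E) : sw j k (sw j k σ) = σ := by
  ext i
  simp [sw]

lemma sum_sw (j k : Fin N) (F : (Fin N ≃ E) → ℝ) : ∑ σ, F (sw j k σ) = ∑ σ, F σ := by
  let e : (Fin N ≃ E) ≃ (Fin N ≃ E) := ⟨sw j k, sw j k, sw_sw j k, sw_sw j k⟩
  exact Equiv.sum_comp e F

lemma card_ge (j : Fin N) : (univ.filter (fun k : Fin N => j ≤ k)).card = N - j := by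
  have : (univ.filter (fun k : Fin N => j ≤ k)) = Finset.Ici j := by ext; simp
  rw [this, Fin.card_Ici]

theorem supermart (m : ℕ) (hm : m ≤ N) (g : Fin N → (Fin N ≃ E) → ℝ)
    (g0 : ∀ i σ, 0 ≤ g i σ)
    (gloc : ∀ i (σ τ : Fin N ≃ E), (∀ i' ≤ i, σ i' = τ i') → g i σ = g i τ)
    (gavg : ∀ j : Fin N, j.val < m → ∀ σ : Fin N ≃ E,
      ∑ k ∈ univ.filter (fun k => j ≤ k), g j (sw j k σ) ≤ (N : ℝ) - (j.val : ℝ)) :
    ∑ σ : Fin N ≃ E, ∏ i ∈ univ.filter (fun i : Fin N => i.val < m), g i σ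
      ≤ (Fintype.card (Fin N ≃ E) : ℝ) := by
  induction m with
  | zero => simp
  | succ m ih =>
    have hmN : m < N := hm
    have ih' := ih (le_of_lt hmN) (fun j hj σ => gavg j (by omega) σ)
    refine le_trans ?_ ih'
    set j : Fin N := ⟨m, hmN⟩ with hj
    set Φ : (Fin N ≃ E) → ℝ := fun σ => ∏ i ∈ univ.filter (fun i : Fin N => i.val < m), g i σ
      with hΦ
    have hins : (univ.filter (fun i : Fin N => i.val < m + 1))
        = insert j (univ.filter (fun i : Fin N => i.val < m)) := by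
      ext i
      simp only [mem_filter, mem_univ, true_and, mem_insert, Fin.ext_iff, hj]
      omega
    have hprod : ∀ σ : Fin N ≃ E,
        ∏ i ∈ univ.filter (fun i : Fin N => i.val < m + 1), g i σ = Φ σ * g j σ := by
      intro σ
      rw [hins, prod_insert (by simp [hj]), mul_comm]
    have hΦ0 : ∀ σ, 0 ≤ Φ σ := fun σ => prod_nonneg (fun i _ => g0 i σ)
    have hΦsw : ∀ k : Fin N, j ≤ k → ∀ σ, Φ (sw j k σ) = Φ σ := by
      intro k hk σ
      apply prod_congr rfl
      intro i hi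
      have him : i.val < m := by simpa using hi
      apply gloc
      intro i' hi'
      apply sw_lt _ hk
      rw [Fin.lt_def]
      have : i'.val ≤ i.val := hi'
      simp only [hj]
      omega
    have hNj : (0:ℝ) < (N : ℝ) - (m : ℝ) := by
      have : (m : ℝ) < N := by exact_mod_cast hmN
      linarith
    have hcard : ((univ.filter (fun k : Fin N => j ≤ k)).card : ℝ) = (N : ℝ) - (m : ℝ) := by
      rw [card_ge, Nat.cast_sub (le_of_lt hmN)]
    have key : ((N : ℝ) - (m : ℝ)) * ∑ σ : Fin N ≃ E, Φ σ * g j σ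
        ≤ ((N : ℝ) - (m : ℝ)) * ∑ σ : Fin N ≃ E, Φ σ := by
      calc ((N : ℝ) - (m : ℝ)) * ∑ σ : Fin N ≃ E, Φ σ * g j σ
          = ∑ k ∈ univ.filter (fun k : Fin N => j ≤ k), ∑ σ : Fin N ≃ E, Φ σ * g j σ := by
            rw [sum_const, nsmul_eq_mul, hcard]
        _ = ∑ k ∈ univ.filter (fun k : Fin N => j ≤ k),
              ∑ σ : Fin N ≃ E, Φ σ * g j (sw j k σ) := by
            apply sum_congr rfl
            intro k hk
            have hk' : j ≤ k := by simpa using hk
            rw [← sum_sw j k (fun σ => Φ σ * g j σ)]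
            apply sum_congr rfl
            intro σ _
            rw [hΦsw k hk']
        _ = ∑ σ : Fin N ≃ E, Φ σ * ∑ k ∈ univ.filter (fun k : Fin N => j ≤ k),
              g j (sw j k σ) := by
            rw [sum_comm]
            apply sum_congr rfl
            intro σ _
            rw [mul_sum]
        _ ≤ ∑ σ : Fin N ≃ E, Φ σ * ((N : ℝ) - (m : ℝ)) := by
            apply sum_le_sum
            intro σ _
            exact mul_le_mul_of_nonneg_left (gavg j (by simp [hj]) σ) (hΦ0 σ)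
        _ = ((N : ℝ) - (m : ℝ)) * ∑ σ : Fin N ≃ E, Φ σ := by
            rw [← sum_mul, mul_comm]
    have := le_of_mul_le_mul_left key hNj
    calc ∑ σ : Fin N ≃ E, ∏ i ∈ univ.filter (fun i : Fin N => i.val < m + 1), g i σ
        = ∑ σ : Fin N ≃ E, Φ σ * g j σ := sum_congr rfl (fun σ _ => hprod σ)
      _ ≤ _ := this

lemma card_pre (σ : Fin N ≃ E) (A : Finset E) :
    (univ.filter (fun k : Fin N => σ k ∈ A)).card = A.card := by
  apply card_bij (fun k _ => σ k)
  · intro k hk; simpa using hk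
  · intro a _ b _ h; exact σ.injective h
  · intro b hb
    exact ⟨σ.symm b, by simpa using hb, by simp⟩

lemma card_tail_ge (σ : Fin N ≃ E) (A : Finset E) (j : Fin N) :
    (A.card : ℝ) - (j.val : ℝ)
      ≤ ((univ.filter (fun k : Fin N => j ≤ k ∧ σ k ∈ A)).card : ℝ) := by
  have h1 : A.card ≤ (univ.filter (fun k : Fin N => k < j)).card
      + (univ.filter (fun k : Fin N => j ≤ k ∧ σ k ∈ A)).card := by
    rw [← card_pre σ A]
    refine le_trans (card_le_card ?_) (card_union_le _ _)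
    intro k hk
    simp only [mem_filter, mem_univ, true_and, mem_union] at hk ⊢
    by_cases h : k < j
    · exact Or.inl h
    · exact Or.inr ⟨not_lt.mp h, hk⟩
  have h2 : (univ.filter (fun k : Fin N => k < j)).card = j.val := by
    have : (univ.filter (fun k : Fin N => k < j)) = Finset.Iio j := by ext; simp
    rw [this, Fin.card_Iio]
  rw [h2] at h1
  have : (A.card : ℝ) ≤ j.val + ((univ.filter (fun k : Fin N => j ≤ k ∧ σ k ∈ A)).card : ℝ) := by
    exact_mod_cast h1
  linarith

lemma card_tail_le (σ : Fin N ≃ E) (A : Finset E) (j : Fin N) :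
    (univ.filter (fun k : Fin N => j ≤ k ∧ σ k ∈ A)).card ≤ A.card := by
  rw [← card_pre σ A]
  apply card_le_card
  intro k hk
  simp only [mem_filter, mem_univ, true_and] at hk ⊢
  exact hk.2

open Classical in
theorem gen (m : ℕ) (hm : m ≤ N) (P : Fin N → (Fin N ≃ E) → Prop)
    (A : Fin N → (Fin N ≃ E) → Finset E)
    (Ploc : ∀ i (σ τ : Fin N ≃ E), (∀ i' < i, σ i' = τ i') → (P i σ ↔ P i τ))
    (Aloc : ∀ i (σ τ : Fin N ≃ E), (∀ i' < i, σ i' = τ i') → A i σ = A i τ)
    (x y : ℝ) (x0 : 0 ≤ x) (y0 : 0 ≤ y)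
    (hc : ∀ j : Fin N, j.val < m → ∀ σ : Fin N ≃ E, P j σ → ∀ c : ℝ,
      ((A j σ).card : ℝ) - (j.val : ℝ) ≤ c → c ≤ ((A j σ).card : ℝ) →
        x * c + y * ((N : ℝ) - (j.val : ℝ) - c) ≤ (N : ℝ) - (j.val : ℝ)) :
    ∑ σ : Fin N ≃ E, ∏ i ∈ univ.filter (fun i : Fin N => i.val < m),
        (if P i σ then (if σ i ∈ A i σ then x else y) else 1)
      ≤ (Fintype.card (Fin N ≃ E) : ℝ) := by
  apply supermart m hm (fun i σ => (if P i σ then (if σ i ∈ A i σ then x else y) else 1))
  · intro i σ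
    split_ifs <;> linarith
  · intro i σ τ h
    have h1 := Ploc i σ τ (fun i' hi' => h i' (le_of_lt hi'))
    have h2 := Aloc i σ τ (fun i' hi' => h i' (le_of_lt hi'))
    have h3 := h i le_rfl
    simp only [h1, h2, h3]
  · intro j hj σ
    have hNj : ((univ.filter (fun k : Fin N => j ≤ k)).card : ℝ) = (N : ℝ) - (j.val : ℝ) := by
      rw [card_ge, Nat.cast_sub (le_of_lt j.isLt)]
    by_cases hP : P j σ
    · have e1 : ∀ k ∈ univ.filter (fun k : Fin N => j ≤ k),
          (if P j (sw j k σ) then (if (sw j k σ) j ∈ A j (sw j k σ) then x else y) else 1)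
            = (if σ k ∈ A j σ then x else y) := by
        intro k hk
        have hk' : j ≤ k := by simpa using hk
        have ha : ∀ i' < j, (sw j k σ) i' = σ i' := fun i' hi' => sw_lt hi' hk' σ
        rw [if_pos ((Ploc j _ _ ha).mpr hP), Aloc j _ _ ha, sw_self]
      rw [sum_congr rfl e1, sum_ite, sum_const, sum_const, nsmul_eq_mul, nsmul_eq_mul]
      rw [filter_filter, filter_filter]
      set c : ℝ := ((univ.filter (fun k : Fin N => j ≤ k ∧ σ k ∈ A j σ)).card : ℝ) with hcdef
      have hsum : ((univ.filter (fun k : Fin N => j ≤ k ∧ ¬ σ k ∈ A j σ)).card : ℝ)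
          = (N : ℝ) - (j.val : ℝ) - c := by
        rw [← hNj, hcdef]
        have := Finset.card_filter_add_card_filter_not (s := univ.filter (fun k : Fin N => j ≤ k))
          (fun k => σ k ∈ A j σ)
        rw [filter_filter, filter_filter] at this
        have h' : ((univ.filter (fun k : Fin N => j ≤ k ∧ σ k ∈ A j σ)).card : ℝ)
          + ((univ.filter (fun k : Fin N => j ≤ k ∧ ¬ σ k ∈ A j σ)).card : ℝ)
          = ((univ.filter (fun k : Fin N => j ≤ k)).card : ℝ) := by exact_mod_cast this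
        linarith
      rw [hsum]
      have := hc j hj σ hP c (card_tail_ge σ (A j σ) j) (by
        rw [hcdef]; exact_mod_cast card_tail_le σ (A j σ) j)
      linarith
    · have e1 : ∀ k ∈ univ.filter (fun k : Fin N => j ≤ k),
          (if P j (sw j k σ) then (if (sw j k σ) j ∈ A j (sw j k σ) then x else y) else 1)
            = 1 := by
        intro k hk
        have hk' : j ≤ k := by simpa using hk
        have ha : ∀ i' < j, (sw j k σ) i' = σ i' := fun i' hi' => sw_lt hi' hk' σ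
        rw [if_neg (fun h => hP ((Ploc j _ _ ha).mp h))]
      rw [sum_congr rfl e1, sum_const, nsmul_eq_mul, hNj, mul_one]

/-- Markov. -/
lemma markov {Ω : Type*} [Fintype Ω] (F : Ω → ℝ) (F0 : ∀ w, 0 ≤ F w) (c : ℝ) (B : Finset Ω)
    (hB : ∀ w ∈ B, c ≤ F w) (T : ℝ) (hF : ∑ w, F w ≤ T) : (B.card : ℝ) * c ≤ T := by
  calc (B.card : ℝ) * c = ∑ w ∈ B, c := by rw [sum_const, nsmul_eq_mul]
    _ ≤ ∑ w ∈ B, F w := sum_le_sum hB
    _ ≤ ∑ w, F w := sum_le_sum_of_subset_of_nonneg (subset_univ _) (fun w _ _ => F0 w)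
    _ ≤ T := hF

open Classical in
/-- Active times without a hit. -/
theorem hit (m : ℕ) (hm : m ≤ N) (P : Fin N → (Fin N ≃ E) → Prop)
    (A : Fin N → (Fin N ≃ E) → Finset E)
    (Ploc : ∀ i (σ τ : Fin N ≃ E), (∀ i' < i, σ i' = τ i') → (P i σ ↔ P i τ))
    (Aloc : ∀ i (σ τ : Fin N ≃ E), (∀ i' < i, σ i' = τ i') → A i σ = A i τ)
    (q : ℝ) (q0 : 0 ≤ q) (q1 : q < 1)
    (hA : ∀ i σ, P i σ → q * N ≤ ((A i σ).card : ℝ) - m) (K : ℕ) :
    ((univ.filter (fun σ : Fin N ≃ E =>
        K ≤ (univ.filter (fun i : Fin N => i.val < m ∧ P i σ)).card ∧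
          ∀ i : Fin N, i.val < m → P i σ → σ i ∉ A i σ)).card : ℝ)
      ≤ (1 - q) ^ K * Fintype.card (Fin N ≃ E) := by
  have h1q : 0 < 1 - q := by linarith
  have hg := gen m hm P A Ploc Aloc 0 (1 / (1 - q)) le_rfl (by positivity) (by
    intro j hj σ hP c hc1 hc2
    have h := hA j σ hP
    have hjm : (j.val : ℝ) ≤ m := by exact_mod_cast hj.le
    have hjN : (j.val : ℝ) ≤ N := by exact_mod_cast j.isLt.le
    have hcq : q * ((N : ℝ) - j.val) ≤ c := by
      have : q * ((N : ℝ) - j.val) ≤ q * N := by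
        apply mul_le_mul_of_nonneg_left _ q0
        have : (0:ℝ) ≤ j.val := by positivity
        linarith
      linarith
    rw [zero_mul, zero_add, div_mul_eq_mul_div, one_mul, div_le_iff₀ h1q]
    nlinarith)
  set B := univ.filter (fun σ : Fin N ≃ E =>
        K ≤ (univ.filter (fun i : Fin N => i.val < m ∧ P i σ)).card ∧
          ∀ i : Fin N, i.val < m → P i σ → σ i ∉ A i σ) with hB
  have hy1 : 1 ≤ 1 / (1 - q) := by rw [le_div_iff₀ h1q]; linarith
  have hmk := markov _ (fun σ => prod_nonneg (fun i _ => by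
      split_ifs <;> positivity)) ((1 / (1 - q)) ^ K) B (by
    intro σ hσ
    rw [hB] at hσ
    simp only [mem_filter, mem_univ, true_and] at hσ
    obtain ⟨h1, h2⟩ := hσ
    have e : ∏ i ∈ univ.filter (fun i : Fin N => i.val < m),
        (if P i σ then (if σ i ∈ A i σ then (0:ℝ) else (1 / (1 - q))) else 1)
        = ∏ i ∈ univ.filter (fun i : Fin N => i.val < m),
          (if P i σ then (1 / (1 - q)) else 1) := by
      apply prod_congr rfl
      intro i hi
      have hi' : i.val < m := by simpa using hi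
      by_cases hP : P i σ
      · rw [if_pos hP, if_pos hP, if_neg (h2 i hi' hP)]
      · rw [if_neg hP, if_neg hP]
    rw [e, prod_ite, prod_const, prod_const_one, mul_one, filter_filter]
    exact pow_le_pow_right₀ hy1 h1) _ hg
  have h3 : (1 - q) ^ K * (1 / (1 - q)) ^ K = 1 := by
    rw [← mul_pow, mul_one_div_cancel h1q.ne', one_pow]
  calc (B.card : ℝ) = (B.card : ℝ) * ((1 - q) ^ K * (1 / (1 - q)) ^ K) := by rw [h3, mul_one]
    _ = (1 - q) ^ K * ((B.card : ℝ) * (1 / (1 - q)) ^ K) := by ring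
    _ ≤ (1 - q) ^ K * Fintype.card (Fin N ≃ E) :=
        mul_le_mul_of_nonneg_left hmk (by positivity)

open Classical in
/-- Lower tail: few hits are unlikely. -/
theorem low (m : ℕ) (hm : m ≤ N) (A : Fin N → (Fin N ≃ E) → Finset E)
    (Aloc : ∀ i (σ τ : Fin N ≃ E), (∀ i' < i, σ i' = τ i') → A i σ = A i τ)
    (q : ℝ) (q0 : 0 ≤ q) (q1 : q < 1)
    (hA : ∀ i σ, q * N ≤ ((A i σ).card : ℝ) - m) (a : ℕ) :
    ((univ.filter (fun σ : Fin N ≃ E =>
        (univ.filter (fun i : Fin N => i.val < m ∧ σ i ∈ A i σ)).card ≤ a)).card : ℝ)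
      ≤ 2 ^ a * Real.exp (-(q * m / 2)) * Fintype.card (Fin N ≃ E) := by
  have h1q : 0 < 1 - q / 2 := by linarith
  have hg := gen m hm (fun _ _ => True) A (fun _ _ _ _ => Iff.rfl) Aloc
    ((1 / (1 - q / 2)) * (1 / 2)) (1 / (1 - q / 2)) (by positivity) (by positivity) (by
    intro j hj σ _ c hc1 hc2
    have h := hA j σ
    have hjm : (j.val : ℝ) ≤ m := by exact_mod_cast hj.le
    have hjN : (j.val : ℝ) ≤ N := by exact_mod_cast j.isLt.le
    have hcq : q * ((N : ℝ) - j.val) ≤ c := by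
      have : q * ((N : ℝ) - j.val) ≤ q * N := by
        apply mul_le_mul_of_nonneg_left _ q0
        have : (0:ℝ) ≤ j.val := by positivity
        linarith
      linarith
    have e : (1 / (1 - q / 2)) * (1 / 2) * c + 1 / (1 - q / 2) * ((N : ℝ) - j.val - c)
        = ((N : ℝ) - j.val - c / 2) / (1 - q / 2) := by
      field_simp; ring
    rw [e, div_le_iff₀ h1q]
    nlinarith)
  set B := univ.filter (fun σ : Fin N ≃ E =>
        (univ.filter (fun i : Fin N => i.val < m ∧ σ i ∈ A i σ)).card ≤ a) with hB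
  have hmcard : (univ.filter (fun i : Fin N => i.val < m)).card = m := by
    rw [Fin.card_filter_val_lt]; omega
  have hmk := markov _ (fun σ => prod_nonneg (fun i _ => by
      split_ifs <;> positivity)) ((1 / 2) ^ a * Real.exp (q * m / 2)) B (by
    intro σ hσ
    rw [hB] at hσ
    simp only [mem_filter, mem_univ, true_and] at hσ
    have e : ∏ i ∈ univ.filter (fun i : Fin N => i.val < m),
        (if σ i ∈ A i σ then (1 / (1 - q / 2)) * (1 / 2) else (1 / (1 - q / 2)))
        = ∏ i ∈ univ.filter (fun i : Fin N => i.val < m),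
          ((1 / (1 - q / 2)) * (if σ i ∈ A i σ then (1 / 2 : ℝ) else 1)) := by
      apply prod_congr rfl
      intro i hi
      by_cases hP : σ i ∈ A i σ
      · simp [hP]
      · simp [hP]
    simp only [if_true]
    rw [e, prod_mul_distrib, prod_const, hmcard, prod_ite, prod_const, prod_const_one, mul_one,
      filter_filter, mul_comm]
    apply mul_le_mul _ _ (by positivity) (by positivity)
    · have : q * m / 2 = (m : ℝ) * (q / 2) := by ring
      rw [this, Real.exp_nat_mul]
      apply pow_le_pow_left₀ (Real.exp_pos _).le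
      have h2 := Real.add_one_le_exp (-(q / 2))
      rw [le_div_iff₀ h1q]
      have h3 : Real.exp (q / 2) * Real.exp (-(q / 2)) = 1 := by
        rw [← Real.exp_add]; simp
      calc Real.exp (q / 2) * (1 - q / 2) ≤ Real.exp (q / 2) * Real.exp (-(q / 2)) := by
            apply mul_le_mul_of_nonneg_left _ (Real.exp_pos _).le
            linarith
        _ = 1 := h3
    · exact pow_le_pow_of_le_one (by norm_num) (by norm_num) hσ) _ hg
  have h3 : (2:ℝ) ^ a * Real.exp (-(q * m / 2)) * ((1 / 2) ^ a * Real.exp (q * m / 2)) = 1 := by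
    have e1 : (2:ℝ) ^ a * (1 / 2) ^ a = 1 := by
      rw [← mul_pow]; norm_num
    have e2 : Real.exp (-(q * m / 2)) * Real.exp (q * m / 2) = 1 := by
      rw [← Real.exp_add]; simp
    calc _ = ((2:ℝ) ^ a * (1 / 2) ^ a) * (Real.exp (-(q * m / 2)) * Real.exp (q * m / 2)) := by
          ring
      _ = 1 := by rw [e1, e2, one_mul]
  calc (B.card : ℝ) = (B.card : ℝ) * ((2:ℝ) ^ a * Real.exp (-(q * m / 2)) *
        ((1 / 2) ^ a * Real.exp (q * m / 2))) := by rw [h3, mul_one]
    _ = 2 ^ a * Real.exp (-(q * m / 2)) * ((B.card : ℝ) * ((1 / 2) ^ a *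
        Real.exp (q * m / 2))) := by ring
    _ ≤ 2 ^ a * Real.exp (-(q * m / 2)) * Fintype.card (Fin N ≃ E) :=
        mul_le_mul_of_nonneg_left hmk (by positivity)

open Classical in
/-- Upper tail: many hits are unlikely. -/
theorem upp (m : ℕ) (hm : m ≤ N) (A : Fin N → (Fin N ≃ E) → Finset E)
    (Aloc : ∀ i (σ τ : Fin N ≃ E), (∀ i' < i, σ i' = τ i') → A i σ = A i τ)
    (q : ℝ) (q0 : 0 ≤ q)
    (hA : ∀ i σ, ((A i σ).card : ℝ) ≤ q * ((N : ℝ) - m)) (b : ℕ) :
    ((univ.filter (fun σ : Fin N ≃ E =>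
        b ≤ (univ.filter (fun i : Fin N => i.val < m ∧ σ i ∈ A i σ)).card)).card : ℝ)
      ≤ (1 / 2) ^ b * Real.exp (q * m) * Fintype.card (Fin N ≃ E) := by
  have h1q : 0 < 1 + q := by linarith
  have hg := gen m hm (fun _ _ => True) A (fun _ _ _ _ => Iff.rfl) Aloc
    ((1 / (1 + q)) * 2) (1 / (1 + q)) (by positivity) (by positivity) (by
    intro j hj σ _ c hc1 hc2
    have h := hA j σ
    have hjm : (j.val : ℝ) ≤ m := by exact_mod_cast hj.le
    have hjN : (j.val : ℝ) ≤ N := by exact_mod_cast j.isLt.le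
    have hcq : c ≤ q * ((N : ℝ) - j.val) := by
      have : q * ((N : ℝ) - m) ≤ q * ((N : ℝ) - j.val) := by
        apply mul_le_mul_of_nonneg_left _ q0
        linarith
      linarith
    have e : (1 / (1 + q)) * 2 * c + 1 / (1 + q) * ((N : ℝ) - j.val - c)
        = ((N : ℝ) - j.val + c) / (1 + q) := by
      field_simp; ring
    rw [e, div_le_iff₀ h1q]
    nlinarith)
  set B := univ.filter (fun σ : Fin N ≃ E =>
        b ≤ (univ.filter (fun i : Fin N => i.val < m ∧ σ i ∈ A i σ)).card) with hB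
  have hmcard : (univ.filter (fun i : Fin N => i.val < m)).card = m := by
    rw [Fin.card_filter_val_lt]; omega
  have hmk := markov _ (fun σ => prod_nonneg (fun i _ => by
      split_ifs <;> positivity)) (2 ^ b * Real.exp (-(q * m))) B (by
    intro σ hσ
    rw [hB] at hσ
    simp only [mem_filter, mem_univ, true_and] at hσ
    have e : ∏ i ∈ univ.filter (fun i : Fin N => i.val < m),
        (if σ i ∈ A i σ then (1 / (1 + q)) * 2 else (1 / (1 + q)))
        = ∏ i ∈ univ.filter (fun i : Fin N => i.val < m),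
          ((1 / (1 + q)) * (if σ i ∈ A i σ then (2 : ℝ) else 1)) := by
      apply prod_congr rfl
      intro i hi
      by_cases hP : σ i ∈ A i σ
      · simp [hP]
      · simp [hP]
    simp only [if_true]
    rw [e, prod_mul_distrib, prod_const, hmcard, prod_ite, prod_const, prod_const_one, mul_one,
      filter_filter, mul_comm]
    apply mul_le_mul _ _ (by positivity) (by positivity)
    · have : -(q * m) = (m : ℝ) * (-q) := by ring
      rw [this, Real.exp_nat_mul]
      apply pow_le_pow_left₀ (Real.exp_pos _).le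
      have h2 := Real.add_one_le_exp q
      rw [le_div_iff₀ h1q]
      have h3 : Real.exp (-q) * Real.exp q = 1 := by
        rw [← Real.exp_add]; simp
      calc Real.exp (-q) * (1 + q) ≤ Real.exp (-q) * Real.exp q := by
            apply mul_le_mul_of_nonneg_left _ (Real.exp_pos _).le
            linarith
        _ = 1 := h3
    · exact pow_le_pow_right₀ (by norm_num) hσ) _ hg
  have h3 : ((1:ℝ) / 2) ^ b * Real.exp (q * m) * (2 ^ b * Real.exp (-(q * m))) = 1 := by
    have e1 : ((1:ℝ) / 2) ^ b * 2 ^ b = 1 := by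
      rw [← mul_pow]; norm_num
    have e2 : Real.exp (q * m) * Real.exp (-(q * m)) = 1 := by
      rw [← Real.exp_add]; simp
    calc _ = (((1:ℝ) / 2) ^ b * 2 ^ b) * (Real.exp (q * m) * Real.exp (-(q * m))) := by
          ring
      _ = 1 := by rw [e1, e2, one_mul]
  calc (B.card : ℝ) = (B.card : ℝ) * ((1 / 2) ^ b * Real.exp (q * m) *
        (2 ^ b * Real.exp (-(q * m)))) := by rw [h3, mul_one]
    _ = (1 / 2) ^ b * Real.exp (q * m) * ((B.card : ℝ) * (2 ^ b *
        Real.exp (-(q * m)))) := by ring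
    _ ≤ (1 / 2) ^ b * Real.exp (q * m) * Fintype.card (Fin N ≃ E) :=
        mul_le_mul_of_nonneg_left hmk (by positivity)

/-- The number of elements with the property `P`. -/
noncomputable def cnt {Ω : Type*} [Fintype Ω] (P : Ω → Prop) : ℕ := by
  classical exact (univ.filter P).card

lemma filter_cnt {Ω : Type*} [Fintype Ω] (P : Ω → Prop) {inst : DecidablePred P} :
    (@Finset.filter Ω P inst univ).card = cnt P := by
  unfold cnt; congr

lemma cnt_mono {Ω : Type*} [Fintype Ω] {P Q : Ω → Prop} (h : ∀ w, P w → Q w) :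
    cnt P ≤ cnt Q := by
  classical
  rw [← filter_cnt (inst := Classical.decPred P), ← filter_cnt (inst := Classical.decPred Q)]
  apply card_le_card
  intro w hw
  simp only [mem_filter, mem_univ, true_and] at hw ⊢
  exact h w hw

lemma cnt_false {Ω : Type*} [Fintype Ω] {P : Ω → Prop} (h : ∀ w, ¬ P w) :
    cnt P = 0 := by
  classical
  rw [← filter_cnt (inst := Classical.decPred P), card_eq_zero]
  apply filter_eq_empty_iff.mpr
  intro w _
  exact h w

lemma cnt_or {Ω : Type*} [Fintype Ω] (P Q : Ω → Prop) :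
    cnt (fun w => P w ∨ Q w) ≤ cnt P + cnt Q := by
  classical
  rw [← filter_cnt (inst := Classical.decPred P), ← filter_cnt (inst := Classical.decPred Q),
    ← filter_cnt (inst := Classical.decPred (fun w => P w ∨ Q w))]
  refine le_trans (card_le_card ?_) (card_union_le _ _)
  intro w hw
  simp only [mem_filter, mem_univ, true_and, mem_union] at hw ⊢
  exact hw

lemma cnt_compl {Ω : Type*} [Fintype Ω] (P : Ω → Prop) :
    cnt P + cnt (fun w => ¬ P w) = Fintype.card Ω := by
  classical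
  have h1 := filter_cnt P (inst := Classical.decPred P)
  have h2 := filter_cnt (fun w => ¬ P w) (inst := fun w => Classical.propDecidable _)
  rw [← h1, ← h2]
  rw [← card_univ]
  convert Finset.card_filter_add_card_filter_not (s := (univ : Finset Ω)) P

lemma cnt_lt {N m : ℕ} (h : m ≤ N) : cnt (fun i : Fin N => i.val < m) = m := by
  rw [← filter_cnt (inst := fun i => Nat.decLt _ _), Fin.card_filter_val_lt]; omega

theorem hit' (m : ℕ) (hm : m ≤ N) (P : Fin N → (Fin N ≃ E) → Prop)
    (A : Fin N → (Fin N ≃ E) → Finset E)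
    (Ploc : ∀ i (σ τ : Fin N ≃ E), (∀ i' < i, σ i' = τ i') → (P i σ ↔ P i τ))
    (Aloc : ∀ i (σ τ : Fin N ≃ E), (∀ i' < i, σ i' = τ i') → A i σ = A i τ)
    (q : ℝ) (q0 : 0 ≤ q) (q1 : q < 1)
    (hA : ∀ i σ, P i σ → q * N ≤ ((A i σ).card : ℝ) - m) (K : ℕ) :
    (cnt (fun σ : Fin N ≃ E =>
        K ≤ cnt (fun i : Fin N => i.val < m ∧ P i σ) ∧
          ∀ i : Fin N, i.val < m → P i σ → σ i ∉ A i σ) : ℝ)
      ≤ (1 - q) ^ K * Fintype.card (Fin N ≃ E) := by
  have h := hit m hm P A Ploc Aloc q q0 q1 hA K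
  simpa only [filter_cnt] using h

theorem low' (m : ℕ) (hm : m ≤ N) (A : Fin N → (Fin N ≃ E) → Finset E)
    (Aloc : ∀ i (σ τ : Fin N ≃ E), (∀ i' < i, σ i' = τ i') → A i σ = A i τ)
    (q : ℝ) (q0 : 0 ≤ q) (q1 : q < 1)
    (hA : ∀ i σ, q * N ≤ ((A i σ).card : ℝ) - m) (a : ℕ) :
    (cnt (fun σ : Fin N ≃ E => cnt (fun i : Fin N => i.val < m ∧ σ i ∈ A i σ) ≤ a) : ℝ)
      ≤ 2 ^ a * Real.exp (-(q * m / 2)) * Fintype.card (Fin N ≃ E) := by
  have h := low m hm A Aloc q q0 q1 hA a
  simpa only [filter_cnt] using h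

theorem upp' (m : ℕ) (hm : m ≤ N) (A : Fin N → (Fin N ≃ E) → Finset E)
    (Aloc : ∀ i (σ τ : Fin N ≃ E), (∀ i' < i, σ i' = τ i') → A i σ = A i τ)
    (q : ℝ) (q0 : 0 ≤ q)
    (hA : ∀ i σ, ((A i σ).card : ℝ) ≤ q * ((N : ℝ) - m)) (b : ℕ) :
    (cnt (fun σ : Fin N ≃ E => b ≤ cnt (fun i : Fin N => i.val < m ∧ σ i ∈ A i σ)) : ℝ)
      ≤ (1 / 2) ^ b * Real.exp (q * m) * Fintype.card (Fin N ≃ E) := by
  have h := upp m hm A Aloc q q0 hA b
  simpa only [filter_cnt] using h

end Q43.Ko
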