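import Pool.Agent.Q43.Ko.Graph

/-!
The random Koenig graph process: deterministic part.
-/

set_option linter.unusedSectionVars false

namespace Q43.Ko
open Finset

/-- The edges of the complete graph on `n` vertices. -/
abbrev Edge (n : ℕ) : Type := {e : Sym2 (Fin n) // ¬ e.IsDiag}

/-- The orderings of the edges of the complete graph on `n` vertices. -/
abbrev Ordering (n : ℕ) : Type := Fin (n.choose 2) ≃ Edge n

open Classical in
/-- The Koenig graph process: `proc σ i` is the graph `G_i`. -/
noncomputable def proc {n : ℕ} (σ : Ordering n) : ℕ → SimpleGraph (Fin n)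
  | 0 => ⊥
  | i + 1 =>
    if h : i < n.choose 2 then
      if tau (addE (proc σ i) (σ ⟨i, h⟩).1) = nu (addE (proc σ i) (σ ⟨i, h⟩).1) then
        addE (proc σ i) (σ ⟨i, h⟩).1
      else proc σ i
    else proc σ i

variable {n : ℕ}

lemma proc_succ_le (σ : Ordering n) (i : ℕ) : proc σ i ≤ proc σ (i + 1) := by
  rw [proc]
  split_ifs
  · exact le_addE _ _
  · exact le_rfl
  · exact le_rfl

lemma proc_mono (σ : Ordering n) {i j : ℕ} (h : i ≤ j) : proc σ i ≤ proc σ j :=
  monotone_nat_of_le_succ (proc_succ_le σ) h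

lemma proc_koenig (σ : Ordering n) (i : ℕ) : tau (proc σ i) = nu (proc σ i) := by
  induction i with
  | zero =>
    apply le_antisymm _ (nu_le_tau _)
    have : tau (proc σ 0) ≤ (∅ : Finset (Fin n)).card := tau_le (fun u v h => by
      simp [proc] at h)
    simp at this
    omega
  | succ i ih =>
    rw [proc]
    split_ifs with h1 h2
    · exact h2
    · exact ih
    · exact ih

lemma proc_local (σ τ : Ordering n) (j : ℕ)
    (h : ∀ i : Fin (n.choose 2), i.val < j → σ i = τ i) : proc σ j = proc τ j := by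
  induction j with
  | zero => simp [proc]
  | succ j ih =>
    have ih' := ih (fun i hi => h i (by omega))
    rw [proc, proc]
    by_cases hj : j < n.choose 2
    · rw [dif_pos hj, dif_pos hj, ih', h ⟨j, hj⟩ (by simp)]
    · rw [dif_neg hj, dif_neg hj, ih']

/-- A pair examined before time `m` that is not an edge at time `m` was rejected. -/
lemma proc_rej (σ : Ordering n) {m : ℕ} (j : Fin (n.choose 2)) (hj : j.val < m)
    (h : (σ j).1 ∉ (proc σ m).edgeSet) {C : Finset (Fin n)} (hC : IsOpt (proc σ j.val) C)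
    {w : Fin n} (hw : w ∈ (σ j).1) : w ∉ C := by
  apply rejected (proc_koenig σ j.val) _ hC hw
  intro heq
  apply h
  have h1 : proc σ (j.val + 1) = addE (proc σ j.val) (σ j).1 := by
    rw [proc, dif_pos j.isLt, if_pos heq]
  have h2 := proc_mono σ (show j.val + 1 ≤ m from hj)
  rw [h1] at h2
  apply SimpleGraph.edgeSet_mono h2
  have hd := (σ j).2
  generalize (σ j).1 = e at hd
  induction e with
  | _ u v =>
    rw [SimpleGraph.mem_edgeSet, addE_adj]
    right
    exact ⟨rfl, by simpa using hd⟩

/-- Deficiency: there is a maximum matching whose missed vertices span no examined pair. -/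
lemma deficiency (σ : Ordering n) (t : ℕ) : ∃ M, IsMatch (proc σ t) M ∧
    M.card = nu (proc σ t) ∧
    ∀ i : Fin (n.choose 2), i.val < t → ∃ v ∈ (σ i).1, v ∈ VM M := by
  classical
  induction t with
  | zero =>
    obtain ⟨M, h1, h2⟩ := exists_nu (proc σ 0)
    exact ⟨M, h1, h2, fun i hi => absurd hi (by omega)⟩
  | succ t ih =>
    obtain ⟨M, hM, hc, hJ⟩ := ih
    by_cases ht : t < n.choose 2
    · set e := (σ ⟨t, ht⟩).1 with he
      have hd : ¬ e.IsDiag := (σ ⟨t, ht⟩).2
      by_cases hin : ∃ v ∈ e, v ∈ VM M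
      · -- extend
        have hM2 : IsMatch (proc σ (t + 1)) M := hM.mono (proc_succ_le σ t)
        obtain ⟨M', h1, h2, h3⟩ := exists_max_extending hM2
        refine ⟨M', h1, h2, ?_⟩
        intro i hi
        rcases Nat.lt_succ_iff_lt_or_eq.mp hi with h | h
        · obtain ⟨v, hv, hv'⟩ := hJ i h
          exact ⟨v, hv, h3 hv'⟩
        · obtain ⟨v, hv, hv'⟩ := hin
          have : i = ⟨t, ht⟩ := Fin.ext h
          rw [this]
          exact ⟨v, hv, h3 hv'⟩
      · push Not at hin
        have heM : e ∉ M := by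
          intro h
          obtain ⟨w, hw⟩ : ∃ w, w ∈ e := ⟨e.out.1, Sym2.out_fst_mem e⟩
          exact hin w hw (mem_VM.mpr ⟨e, h, hw⟩)
        have hnew : IsMatch (addE (proc σ t) e) (insert e M) := by
          constructor
          · intro g hg
            rcases mem_insert.mp hg with rfl | hg
            · clear_value e
              induction e with
              | _ u v =>
                rw [SimpleGraph.mem_edgeSet, addE_adj]
                right
                exact ⟨rfl, by simpa using hd⟩
            · exact SimpleGraph.edgeSet_mono (le_addE _ _) (hM.1 g hg)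
          · have key : ∀ g ∈ M, ∀ x, x ∈ e → x ∉ g := fun g hg x hx hxg =>
              hin x hx (mem_VM.mpr ⟨g, hg, hxg⟩)
            intro g hg g' hg' x hx hx'
            rcases mem_insert.mp hg with rfl | hg
            · rcases mem_insert.mp hg' with rfl | hg'
              · rfl
              · exact absurd hx' (key g' hg' x hx)
            · rcases mem_insert.mp hg' with rfl | hg'
              · exact absurd hx (key g hg x hx')
              · exact hM.2 g hg g' hg' x hx hx'
        have hk : tau (addE (proc σ t) e) = nu (addE (proc σ t) e) := by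
          apply le_antisymm _ (nu_le_tau _)
          have h1 := le_nu hnew
          rw [card_insert_of_notMem heM, hc] at h1
          have h2 := tau_addE_le (proc σ t) e
          rw [proc_koenig] at h2
          omega
        have hp : proc σ (t + 1) = addE (proc σ t) e := by
          rw [proc, dif_pos ht, if_pos hk]
        refine ⟨insert e M, hp ▸ hnew, ?_, ?_⟩
        · rw [hp]
          apply le_antisymm (le_nu hnew)
          have h2 := tau_addE_le (proc σ t) e
          rw [proc_koenig] at h2
          rw [card_insert_of_notMem heM, hc]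
          omega
        · intro i hi
          rcases Nat.lt_succ_iff_lt_or_eq.mp hi with h | h
          · obtain ⟨v, hv, hv'⟩ := hJ i h
            obtain ⟨g, hg, hvg⟩ := mem_VM.mp hv'
            exact ⟨v, hv, mem_VM.mpr ⟨g, mem_insert_of_mem hg, hvg⟩⟩
          · have : i = ⟨t, ht⟩ := Fin.ext h
            rw [this]
            obtain ⟨w, hw⟩ : ∃ w, w ∈ e := ⟨e.out.1, Sym2.out_fst_mem e⟩
            exact ⟨w, hw, mem_VM.mpr ⟨e, mem_insert_self _ _, hw⟩⟩
    · have hp : proc σ (t + 1) = proc σ t := by rw [proc, dif_neg ht]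
      rw [hp]
      refine ⟨M, hM, hc, fun i hi => hJ i ?_⟩
      have := i.isLt
      omega

/-- Vertices in no optimal cover at time `j`. -/
noncomputable def Yv (σ : Ordering n) (j : ℕ) : Finset (Fin n) := (D (proc σ j))ᶜ

lemma mem_Yv {σ : Ordering n} {j : ℕ} {v : Fin n} :
    v ∈ Yv σ j ↔ ∀ C, IsOpt (proc σ j) C → v ∉ C := by
  simp [Yv, D]

open Classical in
/-- The pairs with one end in `T` and one end in `B`. -/
noncomputable def cross (T B : Finset (Fin n)) : Finset (Edge n) :=
  univ.filter (fun e => ∃ u ∈ T, ∃ v ∈ B, e.1 = s(u, v))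

lemma mem_cross {T B : Finset (Fin n)} {e : Edge n} :
    e ∈ cross T B ↔ ∃ u ∈ T, ∃ v ∈ B, e.1 = s(u, v) := by simp [cross]

lemma card_cross {T B : Finset (Fin n)} (h : Disjoint T B) :
    (cross T B).card = T.card * B.card := by
  rw [← card_product]
  symm
  have hne : ∀ p ∈ T ×ˢ B, ¬ (s(p.1, p.2) : Sym2 (Fin n)).IsDiag := by
    intro p hp
    rw [mem_product] at hp
    intro hd
    rw [Sym2.mk_isDiag_iff] at hd
    exact disjoint_left.mp h hp.1 (hd ▸ hp.2)
  apply card_bij (fun p hp => (⟨s(p.1, p.2), hne p hp⟩ : Edge n))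
  · intro p hp
    rw [mem_cross]
    rw [mem_product] at hp
    exact ⟨p.1, hp.1, p.2, hp.2, rfl⟩
  · intro p hp q hq hpq
    rw [mem_product] at hp hq
    rw [Subtype.mk.injEq, Sym2.eq_iff] at hpq
    rcases hpq with ⟨h1, h2⟩ | ⟨h1, h2⟩
    · exact Prod.ext h1 h2
    · exfalso
      exact disjoint_left.mp h hp.1 (h1 ▸ hq.2)
  · intro e he
    rw [mem_cross] at he
    obtain ⟨u, hu, v, hv, he⟩ := he
    exact ⟨(u, v), mem_product.mpr ⟨hu, hv⟩, Subtype.ext he.symm⟩

open Classical in
/-- The pairs used for the hits: one end in a fixed `s`-subset `W` of `I \ Y`, the other in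
`I \ W`. -/
noncomputable def Asub (s : ℕ) (I Y : Finset (Fin n)) : Finset (Edge n) :=
  if h : s ≤ (I \ Y).card then
    cross (exists_subset_card_eq h).choose (I \ (exists_subset_card_eq h).choose)
  else ∅

lemma Asub_spec (s : ℕ) (I Y : Finset (Fin n)) (h : s ≤ (I \ Y).card) :
    ∃ W : Finset (Fin n), W ⊆ I \ Y ∧ W.card = s ∧ Asub s I Y = cross W (I \ W) := by
  refine ⟨(exists_subset_card_eq h).choose, (exists_subset_card_eq h).choose_spec.1,
    (exists_subset_card_eq h).choose_spec.2, ?_⟩
  rw [Asub, dif_pos h]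

lemma tau_big (σ : Ordering n) {t0 s : ℕ}
    (G1 : ∀ S : Finset (Fin n), s ≤ S.card →
      ∃ i : Fin (n.choose 2), i.val < t0 ∧ ∀ v ∈ (σ i).1, v ∈ S)
    {t : ℕ} (ht : t0 ≤ t) : n < 2 * tau (proc σ t) + s := by
  by_contra hcon
  push Not at hcon
  obtain ⟨M, hM, hc, hJ⟩ := deficiency σ t
  have h1 : ((VM M)ᶜ).card = n - 2 * nu (proc σ t) := by
    rw [card_compl, card_VM hM, hc, Fintype.card_fin]
  have hk := proc_koenig σ t
  obtain ⟨i, hi, hin⟩ := G1 (VM M)ᶜ (by omega)
  obtain ⟨v, hv, hv'⟩ := hJ i (by omega)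
  exact (mem_compl.mp (hin v hv)) hv'

lemma two_tau_le (σ : Ordering n) (t : ℕ) : 2 * tau (proc σ t) ≤ n := by
  rw [proc_koenig]
  have := two_nu_le (proc σ t)
  rwa [Fintype.card_fin] at this

lemma Yv_small (σ : Ordering n) {t s : ℕ} (h : n < 2 * tau (proc σ t) + s) :
    2 * (Yv σ t).card < n + s := by
  obtain ⟨C, hC⟩ := exists_opt (proc σ t)
  have h1 : Yv σ t ⊆ Cᶜ := fun v hv => mem_compl.mpr (mem_Yv.mp hv C hC)
  have h2 := card_le_card h1
  rw [card_compl, Fintype.card_fin, hC.2] at h2
  have h3 := two_tau_le σ t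
  omega

/-- If `Y` is small and `I \ Y` is small then `Y \ I` is small. -/
lemma sdiff_small {I Y : Finset (Fin n)} {s : ℕ} (hI : n ≤ 2 * I.card)
    (hY : 2 * Y.card < n + s) (h : (I \ Y).card < s) : 2 * (Y \ I).card ≤ 3 * s := by
  have h1 := card_sdiff_add_card_inter Y I
  have h2 := card_sdiff_add_card_inter I Y
  rw [inter_comm] at h2
  omega

lemma inside_Y (σ : Ordering n) {m : ℕ}
    (j : Fin (n.choose 2)) (hj : j.val < m) (h : (σ j).1 ∉ (proc σ m).edgeSet)
    {w : Fin n} (hw : w ∈ (σ j).1) : w ∈ Yv σ j.val :=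
  mem_Yv.mpr (fun _ hC' => proc_rej σ j hj h hC' hw)

lemma card_fin_lt {N m : ℕ} (h : m ≤ N) : (univ.filter (fun i : Fin N => i.val < m)).card = m := by
  rw [Fin.card_filter_val_lt]; omega

lemma card_fin_lt_le {N m : ℕ} : (univ.filter (fun i : Fin N => i.val < m)).card ≤ m := by
  rw [Fin.card_filter_val_lt]; omega

open Classical in
/-- Few bad times for the complement of an optimal cover at a later time. -/
lemma few_bad (σ : Ordering n) {m0 K s : ℕ}
    (G2 : ∀ I : Finset (Fin n), n ≤ 2 * I.card →
      K ≤ (univ.filter (fun i : Fin (n.choose 2) =>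
        i.val < m0 ∧ s ≤ (I \ Yv σ i.val).card)).card →
      ∃ i : Fin (n.choose 2), i.val < m0 ∧ s ≤ (I \ Yv σ i.val).card ∧
        σ i ∈ Asub s I (Yv σ i.val))
    {m : ℕ} (hm : m0 ≤ m) {C : Finset (Fin n)} (hC : IsOpt (proc σ m) C) :
    (univ.filter (fun i : Fin (n.choose 2) =>
        i.val < m0 ∧ s ≤ (Cᶜ \ Yv σ i.val).card)).card < K := by
  by_contra hcon
  push Not at hcon
  have hI : n ≤ 2 * (Cᶜ).card := by
    rw [card_compl, Fintype.card_fin, hC.2]
    have := two_tau_le σ m
    omega
  obtain ⟨i, hi, hs, hA⟩ := G2 Cᶜ hI hcon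
  obtain ⟨W, hW1, hW2, hW3⟩ := Asub_spec s Cᶜ (Yv σ i.val) hs
  rw [hW3, mem_cross] at hA
  obtain ⟨u, hu, v, hv, huv⟩ := hA
  have huC : u ∉ C := mem_compl.mp (mem_sdiff.mp (hW1 hu)).1
  have hvC : v ∉ C := mem_compl.mp (mem_sdiff.mp hv).1
  have hne : (σ i).1 ∉ (proc σ m).edgeSet := by
    rw [huv, SimpleGraph.mem_edgeSet]
    intro hadj
    rcases hC.1 u v hadj with h | h
    · exact huC h
    · exact hvC h
  have := inside_Y σ i (by omega) hne (w := u) (by rw [huv]; exact Sym2.mem_mk_left u v)
  exact (mem_sdiff.mp (hW1 hu)).2 this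

open Classical in
theorem det (σ : Ordering n) {m0 t0 K a b s d : ℕ}
    (G1 : ∀ S : Finset (Fin n), s ≤ S.card →
      ∃ i : Fin (n.choose 2), i.val < t0 ∧ ∀ v ∈ (σ i).1, v ∈ S)
    (G2 : ∀ I : Finset (Fin n), n ≤ 2 * I.card →
      K ≤ (univ.filter (fun i : Fin (n.choose 2) =>
        i.val < m0 ∧ s ≤ (I \ Yv σ i.val).card)).card →
      ∃ i : Fin (n.choose 2), i.val < m0 ∧ s ≤ (I \ Yv σ i.val).card ∧
        σ i ∈ Asub s I (Yv σ i.val))
    (G3 : ∀ T B : Finset (Fin n), Disjoint T B → d ≤ T.card → n ≤ 2 * B.card + 2 * d + 6 * s →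
      a ≤ (univ.filter (fun i : Fin (n.choose 2) => i.val < m0 ∧ σ i ∈ cross T B)).card)
    (G4 : ∀ T B : Finset (Fin n), Disjoint T B →
      (univ.filter (fun i : Fin (n.choose 2) => i.val < m0 ∧ (T ∩ Yv σ i.val).card ≤ 2 * s ∧
        σ i ∈ cross (T ∩ Yv σ i.val) B)).card < b)
    (hK : t0 + 2 * K ≤ m0) (hm0 : m0 ≤ n.choose 2) (hab : t0 + K + b ≤ a) (hd : 1 ≤ d)
    {m : ℕ} (hm : m0 ≤ m) :
    n < 2 * (D (proc σ m)).card + s ∧ 2 * (D (proc σ m)).card ≤ n + 2 * d := by
  obtain ⟨C, hC⟩ := exists_opt (proc σ m)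
  have hkm := proc_koenig σ m
  have hI : ∀ C, IsOpt (proc σ m) C → n ≤ 2 * (Cᶜ).card := by
    intro C hC
    rw [card_compl, Fintype.card_fin, hC.2]
    have := two_tau_le σ m
    omega
  have hgoodY : ∀ j : ℕ, t0 ≤ j → 2 * (Yv σ j).card < n + s := fun j hj =>
    Yv_small σ (tau_big σ G1 hj)
  have hbad := fun (C : Finset (Fin n)) (hC : IsOpt (proc σ m) C) => few_bad σ G2 hm hC
  -- two optimal covers are close
  have hclose : ∀ C', IsOpt (proc σ m) C' → (C \ C').card ≤ 3 * s := by
    intro C' hC'
    have hex : ∃ j : Fin (n.choose 2), t0 ≤ j.val ∧ (Cᶜ \ Yv σ j.val).card < s ∧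
        (C'ᶜ \ Yv σ j.val).card < s := by
      by_contra hcon
      push Not at hcon
      have hsub : (univ.filter (fun i : Fin (n.choose 2) => i.val < m0)) ⊆
          (univ.filter (fun i : Fin (n.choose 2) => i.val < t0)) ∪
          ((univ.filter (fun i : Fin (n.choose 2) =>
            i.val < m0 ∧ s ≤ (Cᶜ \ Yv σ i.val).card)) ∪
          (univ.filter (fun i : Fin (n.choose 2) =>
            i.val < m0 ∧ s ≤ (C'ᶜ \ Yv σ i.val).card))) := by
        intro i hi
        simp only [mem_filter, mem_univ, true_and, mem_union] at hi ⊢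
        by_cases h1 : i.val < t0
        · exact Or.inl h1
        · right
          by_cases h2 : s ≤ (Cᶜ \ Yv σ i.val).card
          · exact Or.inl ⟨hi, h2⟩
          · exact Or.inr ⟨hi, hcon i (by omega) (by omega)⟩
      have h1 := card_le_card hsub
      have h2 := card_union_le (univ.filter (fun i : Fin (n.choose 2) => i.val < t0))
          ((univ.filter (fun i : Fin (n.choose 2) =>
            i.val < m0 ∧ s ≤ (Cᶜ \ Yv σ i.val).card)) ∪
          (univ.filter (fun i : Fin (n.choose 2) =>
            i.val < m0 ∧ s ≤ (C'ᶜ \ Yv σ i.val).card)))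
      have h3 := card_union_le (univ.filter (fun i : Fin (n.choose 2) =>
            i.val < m0 ∧ s ≤ (Cᶜ \ Yv σ i.val).card))
          (univ.filter (fun i : Fin (n.choose 2) =>
            i.val < m0 ∧ s ≤ (C'ᶜ \ Yv σ i.val).card))
      have h4 := card_fin_lt hm0
      have h5 : (univ.filter (fun i : Fin (n.choose 2) => i.val < t0)).card ≤ t0 :=
        card_fin_lt_le
      have h6 := hbad C hC
      have h7 := hbad C' hC'
      omega
    obtain ⟨j, hj, hj1, hj2⟩ := hex
    have h1 := sdiff_small (hI C hC) (hgoodY j.val hj) hj1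
    have hsub : C \ C' ⊆ (C'ᶜ \ Yv σ j.val) ∪ (Yv σ j.val \ Cᶜ) := by
      intro v hv
      simp only [mem_union, mem_sdiff, mem_compl, not_not] at hv ⊢
      by_cases h : v ∈ Yv σ j.val
      · exact Or.inr ⟨h, hv.1⟩
      · exact Or.inl ⟨hv.2, h⟩
    have h2 := card_le_card hsub
    have h3 := card_union_le (C'ᶜ \ Yv σ j.val) (Yv σ j.val \ Cᶜ)
    omega
  -- unions of differences are tight
  set U : Finset (Finset (Fin n)) → Finset (Fin n) := fun F => F.biUnion (fun C' => C \ C')
    with hU
  have hUC : ∀ F, U F ⊆ C := by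
    intro F v hv
    obtain ⟨C', _, h⟩ := mem_biUnion.mp hv
    exact (mem_sdiff.mp h).1
  have hUins : ∀ F C', U (insert C' F) = (C \ C') ∪ U F := by
    intro F C'
    simp only [hU, biUnion_insert]
  have htight : ∀ F : Finset (Finset (Fin n)), (∀ C' ∈ F, IsOpt (proc σ m) C') →
      (Nb (proc σ m) C (U F)).card = (U F).card := by
    intro F
    induction F using Finset.induction_on with
    | empty =>
      intro _
      have h1 : Nb (proc σ m) C (U ∅) = ∅ := by
        ext w
        simp [mem_Nb, hU]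
      rw [h1]
      simp [hU]
    | insert C' F hF ih =>
      intro h
      have ih' := ih (fun C'' h'' => h C'' (mem_insert_of_mem h''))
      have h1 := (opt_diff_eq hkm hC (h C' (mem_insert_self _ _))).2
      have h2 := tight_union hkm hC (S := C \ C') (T := U F) sdiff_subset h1 ih'
      rw [hUins]
      apply le_antisymm h2
      apply hall_le hkm hC
      exact union_subset sdiff_subset (hUC F)
  -- the union is small
  have hsmall : ∀ F : Finset (Finset (Fin n)), (∀ C' ∈ F, IsOpt (proc σ m) C') →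
      (U F).card < d := by
    by_contra hcon
    push Not at hcon
    obtain ⟨F, hF, hFd⟩ := hcon
    have hgrow : ∀ F : Finset (Finset (Fin n)), (∀ C' ∈ F, IsOpt (proc σ m) C') →
        d ≤ (U F).card → ∃ F', (∀ C' ∈ F', IsOpt (proc σ m) C') ∧ d ≤ (U F').card ∧
          (U F').card ≤ d + 3 * s := by
      intro F
      induction F using Finset.induction_on with
      | empty =>
        intro _ h
        simp [hU] at h
        omega
      | insert C' F hF ih =>
        intro h hd'
        by_cases hc : d ≤ (U F).card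
        · exact ih (fun C'' h'' => h C'' (mem_insert_of_mem h'')) hc
        · refine ⟨insert C' F, h, hd', ?_⟩
          rw [hUins]
          have h1 := card_union_le (C \ C') (U F)
          have h2 := hclose C' (h C' (mem_insert_self _ _))
          omega
    obtain ⟨F', hF', hd1, hd2⟩ := hgrow F hF hFd
    set T := U F' with hT
    set B := Cᶜ \ Nb (proc σ m) C T with hB
    have hNbI : Nb (proc σ m) C T ⊆ Cᶜ := fun w hw => mem_compl.mpr (mem_Nb.mp hw).1
    have hBcard : B.card = (Cᶜ).card - T.card := by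
      rw [hB, card_sdiff_of_subset hNbI, htight F' hF']
    have hTcard : T.card ≤ (Cᶜ).card := by
      rw [← htight F' hF']
      exact card_le_card hNbI
    have hdisj : Disjoint T B := by
      rw [disjoint_left]
      intro v hv hv'
      exact (mem_compl.mp (mem_sdiff.mp hv').1) (hUC F' hv)
    have h3 := G3 T B hdisj hd1 (by
      have := hI C hC
      omega)
    have h4 := G4 T B hdisj
    have h5 := hbad C hC
    have hsub : (univ.filter (fun i : Fin (n.choose 2) => i.val < m0 ∧ σ i ∈ cross T B)) ⊆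
        (univ.filter (fun i : Fin (n.choose 2) => i.val < t0)) ∪
        ((univ.filter (fun i : Fin (n.choose 2) =>
            i.val < m0 ∧ s ≤ (Cᶜ \ Yv σ i.val).card)) ∪
        (univ.filter (fun i : Fin (n.choose 2) => i.val < m0 ∧ (T ∩ Yv σ i.val).card ≤ 2 * s ∧
        σ i ∈ cross (T ∩ Yv σ i.val) B))) := by
      intro i hi
      simp only [mem_filter, mem_univ, true_and, mem_union] at hi ⊢
      by_cases h1 : i.val < t0
      · exact Or.inl h1
      · right
        by_cases h2 : s ≤ (Cᶜ \ Yv σ i.val).card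
        · exact Or.inl ⟨hi.1, h2⟩
        · right
          obtain ⟨hi1, hi2⟩ := hi
          rw [mem_cross] at hi2
          obtain ⟨u, hu, v, hv, huv⟩ := hi2
          have hne : (σ i).1 ∉ (proc σ m).edgeSet := by
            rw [huv, SimpleGraph.mem_edgeSet]
            intro hadj
            apply (mem_sdiff.mp hv).2
            rw [mem_Nb]
            exact ⟨mem_compl.mp (mem_sdiff.mp hv).1, u, hu, hadj⟩
          have huY := inside_Y σ i (by omega) hne (w := u)
            (by rw [huv]; exact Sym2.mem_mk_left u v)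
          refine ⟨hi1, ?_, ?_⟩
          · have h6 : T ∩ Yv σ i.val ⊆ Yv σ i.val \ Cᶜ := by
              intro w hw
              obtain ⟨hw1, hw2⟩ := mem_inter.mp hw
              rw [mem_sdiff, mem_compl, not_not]
              exact ⟨hw2, hUC F' hw1⟩
            have h7 := card_le_card h6
            have h8 := sdiff_small (hI C hC) (hgoodY i.val (by omega)) (by omega)
            omega
          · rw [mem_cross]
            exact ⟨u, mem_inter.mpr ⟨hu, huY⟩, v, hv, huv⟩
    have h6 := card_le_card hsub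
    have h7 := card_union_le (univ.filter (fun i : Fin (n.choose 2) => i.val < t0))
        ((univ.filter (fun i : Fin (n.choose 2) =>
            i.val < m0 ∧ s ≤ (Cᶜ \ Yv σ i.val).card)) ∪
        (univ.filter (fun i : Fin (n.choose 2) => i.val < m0 ∧ (T ∩ Yv σ i.val).card ≤ 2 * s ∧
        σ i ∈ cross (T ∩ Yv σ i.val) B)))
    have h8 := card_union_le (univ.filter (fun i : Fin (n.choose 2) =>
            i.val < m0 ∧ s ≤ (Cᶜ \ Yv σ i.val).card))
        (univ.filter (fun i : Fin (n.choose 2) => i.val < m0 ∧ (T ∩ Yv σ i.val).card ≤ 2 * s ∧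
        σ i ∈ cross (T ∩ Yv σ i.val) B))
    have h9 : (univ.filter (fun i : Fin (n.choose 2) => i.val < t0)).card ≤ t0 :=
        card_fin_lt_le
    omega
  constructor
  · have h1 := tau_big σ G1 (t := m) (by omega)
    have h2 : C ⊆ D (proc σ m) := by
      intro v hv
      simp only [D, mem_filter, mem_univ, true_and]
      exact ⟨C, hC, hv⟩
    have h3 := card_le_card h2
    rw [hC.2] at h3
    omega
  · set F : Finset (Finset (Fin n)) := univ.filter (fun C' => IsOpt (proc σ m) C') with hF
    have hFo : ∀ C' ∈ F, IsOpt (proc σ m) C' := by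
      intro C' h
      simpa [hF] using h
    have h1 := hsmall F hFo
    have h2 := htight F hFo
    have h3 : D (proc σ m) ⊆ C ∪ Nb (proc σ m) C (U F) := by
      intro v hv
      simp only [D, mem_filter, mem_univ, true_and] at hv
      obtain ⟨C', hC', hv'⟩ := hv
      by_cases h : v ∈ C
      · exact mem_union_left _ h
      · apply mem_union_right
        have h4 : v ∈ C' \ C := mem_sdiff.mpr ⟨hv', h⟩
        rw [← (opt_diff_eq hkm hC hC').1] at h4
        obtain ⟨h5, u, hu, ha⟩ := mem_Nb.mp h4
        refine mem_Nb.mpr ⟨h5, u, ?_, ha⟩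
        exact mem_biUnion.mpr ⟨C', by simpa [hF] using hC', hu⟩
    have h4 := card_le_card h3
    have h5 := card_union_le C (Nb (proc σ m) C (U F))
    have h6 := two_tau_le σ m
    have h7 := hC.2
    omega

end Q43.Ko
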