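import Pool.Agent.Q43.Ko.Main

/-!
The random Koenig graph process: asymptotics.
-/

set_option linter.unusedSectionVars false

namespace Q43.Ko
open Finset Filter Topology

lemma Pr_le_one (n : ℕ) (P : Ordering n → Prop) : Pr n P ≤ 1 := by
  rw [Pr_eq, div_le_one Tot_pos]
  have := cnt_compl P
  rw [Tot]
  have : cnt P ≤ Fintype.card (Ordering n) := by omega
  exact_mod_cast this

lemma Pr_mono (n : ℕ) {P Q : Ordering n → Prop} (h : ∀ σ, P σ → Q σ) : Pr n P ≤ Pr n Q := by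
  rw [Pr_eq, Pr_eq]
  apply div_le_div_of_nonneg_right _ Tot_pos.le
  exact_mod_cast cnt_mono h

/-- The event of the problem, with relative error `η`. -/
def Ev (c η : ℝ) (n : ℕ) (σ : Ordering n) : Prop :=
  ∀ m : ℕ, c * n * Real.log n ≤ m → m ≤ n.choose 2 →
    |((D (proc σ m)).card : ℝ) - n / 2| ≤ η * (n / 2)

lemma ev_bound {c η : ℝ} (hc : 0 < c) (h0 : 0 < η) (h1 : η ≤ 1) :
    ∀ᶠ n : ℕ in atTop, 1 - 4 * (2 * Real.exp (-1)) ^ n ≤ Pr n (Ev c η n) := by
  set ε : ℝ := η / 20000 with hε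
  have ε0 : 0 < ε := by positivity
  have ε1 : ε ≤ 1 / 20000 := by rw [hε]; linarith
  set C : ℝ := 16 / ε ^ 2 with hC
  have C0 : 0 < C := by positivity
  set B : ℝ := 4 / ε with hB
  have B0 : 0 < B := by positivity
  set Γ : ℝ := (C + 2 * B + 10) / ε with hΓ
  have Γ0 : 0 < Γ := by positivity
  have hΓε : Γ * ε = C + 2 * B + 10 := by rw [hΓ]; field_simp
  have hΓ1 : C + 2 * B + 10 ≤ Γ := by
    rw [← hΓε]
    exact mul_le_of_le_one_right Γ0.le (by linarith)
  have t1 : ∀ᶠ n : ℕ in atTop, (100 / ε + 32 * (C + 1) / ε ^ 2 + 100 : ℝ) ≤ (n : ℝ) :=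
    tendsto_natCast_atTop_atTop.eventually_ge_atTop _
  have t2 : ∀ᶠ n : ℕ in atTop, Γ / c ≤ Real.log (n : ℝ) :=
    (Real.tendsto_log_atTop.comp tendsto_natCast_atTop_atTop).eventually_ge_atTop _
  have t3 : ∀ᶠ n : ℕ in atTop, Real.log (n : ℝ) ≤ (ε / (16 * c)) * (n : ℝ) := by
    have h := Real.isLittleO_log_id_atTop.bound (show (0:ℝ) < ε / (16 * c) by positivity)
    have h' := (tendsto_natCast_atTop_atTop (R := ℝ)).eventually h
    filter_upwards [h'] with n hn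
    simp only [id, Real.norm_eq_abs] at hn
    rw [abs_of_nonneg (show (0:ℝ) ≤ (n:ℝ) by positivity)] at hn
    exact le_trans (le_abs_self _) hn
  filter_upwards [t1, t2, t3] with n hn1 hn2 hn3
  have hx1 : 100 / ε ≤ (n : ℝ) := by
    have : 0 ≤ 32 * (C + 1) / ε ^ 2 := by positivity
    linarith
  have hx2 : 32 * (C + 1) / ε ^ 2 ≤ (n : ℝ) := by
    have : 0 ≤ 100 / ε := by positivity
    linarith
  have hx3 : (100 : ℝ) ≤ n := by
    have : 0 ≤ 32 * (C + 1) / ε ^ 2 := by positivity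
    have : 0 ≤ 100 / ε := by positivity
    linarith
  have hx0 : (0:ℝ) < n := by linarith
  have hx1' : 100 ≤ ε * (n : ℝ) := by
    rw [div_le_iff₀ ε0] at hx1; linarith
  have hx2' : 32 * (C + 1) ≤ ε ^ 2 * (n : ℝ) := by
    rw [div_le_iff₀ (by positivity)] at hx2; linarith
  set x : ℝ := (n : ℝ) with hx
  set M : ℝ := c * x * Real.log x with hM
  have hM1 : Γ * x ≤ M := by
    rw [div_le_iff₀ hc] at hn2
    calc Γ * x ≤ (Real.log x * c) * x := mul_le_mul_of_nonneg_right hn2 hx0.le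
      _ = M := by rw [hM]; ring
  have hM2 : M ≤ ε / 16 * x ^ 2 := by
    have h : c * Real.log x ≤ c * ((ε / (16 * c)) * x) :=
      mul_le_mul_of_nonneg_left hn3 hc.le
    have e : c * ((ε / (16 * c)) * x) = ε / 16 * x := by field_simp
    rw [e] at h
    calc M = (c * Real.log x) * x := by rw [hM]; ring
      _ ≤ (ε / 16 * x) * x := mul_le_mul_of_nonneg_right h hx0.le
      _ = ε / 16 * x ^ 2 := by ring
  have hM0 : 0 ≤ M := le_trans (by positivity) hM1
  -- the integer parameters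
  obtain ⟨s, hs⟩ : ∃ s, s = ⌈ε * x⌉₊ := ⟨_, rfl⟩
  obtain ⟨d, hd⟩ : ∃ d, d = ⌈2048 * ε * x⌉₊ := ⟨_, rfl⟩
  obtain ⟨t0, ht0⟩ : ∃ t0, t0 = ⌈C * x⌉₊ := ⟨_, rfl⟩
  obtain ⟨K, hK⟩ : ∃ K, K = ⌈B * x⌉₊ := ⟨_, rfl⟩
  obtain ⟨m0, hm0⟩ : ∃ m0, m0 = ⌈M⌉₊ := ⟨_, rfl⟩
  obtain ⟨a, ha⟩ : ∃ a, a = ⌊128 * ε * (m0 : ℝ)⌋₊ := ⟨_, rfl⟩
  obtain ⟨b, hb⟩ : ∃ b, b = ⌈64 * ε * (m0 : ℝ)⌉₊ := ⟨_, rfl⟩
  have s1 : ε * x ≤ s := by rw [hs]; exact Nat.le_ceil _
  have s2 : (s : ℝ) ≤ ε * x + 1 := by rw [hs]; exact (Nat.ceil_lt_add_one (by positivity)).le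
  have d1 : 2048 * ε * x ≤ d := by rw [hd]; exact Nat.le_ceil _
  have d2 : (d : ℝ) ≤ 2048 * ε * x + 1 := by
    rw [hd]; exact (Nat.ceil_lt_add_one (by positivity)).le
  have t01 : C * x ≤ t0 := by rw [ht0]; exact Nat.le_ceil _
  have t02 : (t0 : ℝ) ≤ C * x + 1 := by rw [ht0]; exact (Nat.ceil_lt_add_one (by positivity)).le
  have K1 : B * x ≤ K := by rw [hK]; exact Nat.le_ceil _
  have K2 : (K : ℝ) ≤ B * x + 1 := by rw [hK]; exact (Nat.ceil_lt_add_one (by positivity)).le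
  have m1 : M ≤ m0 := by rw [hm0]; exact Nat.le_ceil _
  have m2 : (m0 : ℝ) ≤ M + 1 := by rw [hm0]; exact (Nat.ceil_lt_add_one hM0).le
  have a1 : (a : ℝ) ≤ 128 * ε * m0 := by rw [ha]; exact Nat.floor_le (by positivity)
  have a2 : 128 * ε * m0 ≤ (a : ℝ) + 1 := by rw [ha]; exact (Nat.lt_floor_add_one _).le
  have b1 : 64 * ε * m0 ≤ (b : ℝ) := by rw [hb]; exact Nat.le_ceil _
  have b2 : (b : ℝ) ≤ 64 * ε * m0 + 1 := by
    rw [hb]; exact (Nat.ceil_lt_add_one (by positivity)).le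
  have hN : ((n.choose 2 : ℕ) : ℝ) = x * (x - 1) / 2 := by rw [Nat.cast_choose_two]
  have F0 : 0 ≤ x ^ 2 := by positivity
  have F1 : 100 * x ≤ x ^ 2 := by
    calc 100 * x ≤ x * x := mul_le_mul_of_nonneg_right hx3 hx0.le
      _ = x ^ 2 := by ring
  have F2 : ε * x ^ 2 ≤ 1 / 20000 * x ^ 2 := mul_le_mul_of_nonneg_right ε1 F0
  have F2' : 100 * x ≤ ε * x ^ 2 := by
    calc 100 * x ≤ (ε * x) * x := mul_le_mul_of_nonneg_right hx1' hx0.le
      _ = ε * x ^ 2 := by ring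
  have F3 : ε ^ 2 * x ^ 2 ≤ 1 / 20000 * (ε * x ^ 2) := by
    calc ε ^ 2 * x ^ 2 = ε * (ε * x ^ 2) := by ring
      _ ≤ 1 / 20000 * (ε * x ^ 2) := mul_le_mul_of_nonneg_right ε1 (by positivity)
  have F4 : ε * x ≤ 1 / 20000 * x := mul_le_mul_of_nonneg_right ε1 hx0.le
  have F5 : 0 ≤ ε * x := by positivity
  have F6 : 0 ≤ ε ^ 2 * x := by positivity
  have F7 : 0 ≤ C * x := by positivity
  have F8 : 0 ≤ B * x := by positivity
  have hm0x : (m0 : ℝ) ≤ ε / 8 * x ^ 2 := by linarith only [m2, hM2, F2', hx3]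
  have hm0Γ : Γ * x ≤ m0 := le_trans hM1 m1
  have hεm0 : (C + 2 * B + 10) * x ≤ ε * m0 := by
    rw [← hΓε]
    calc Γ * ε * x = ε * (Γ * x) := by ring
      _ ≤ ε * m0 := mul_le_mul_of_nonneg_left hm0Γ ε0.le
  have ht0x : (t0 : ℝ) ≤ ε ^ 2 / 32 * x ^ 2 := by
    have h := mul_le_mul_of_nonneg_right hx2' hx0.le
    linarith only [h, t02, hx3]
  have FΓ : (C + 2 * B + 10) * x ≤ Γ * x := mul_le_mul_of_nonneg_right hΓ1 hx0.le
  -- apply the main bound
  have hmain := main_bound (n := n) (m0 := m0) (t0 := t0) (K := K) (a := a) (b := b) (s := s)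
    (d := d) (q1 := ε ^ 2 / 16) (q2 := ε / 4) (q3 := 512 * ε) (q4 := 16 * ε)
    (by
      have : (t0 : ℝ) ≤ ((n.choose 2 : ℕ) : ℝ) := by
        rw [hN]; linarith only [ht0x, F0, F1, F2, F3]
      exact_mod_cast this)
    (by
      have : (m0 : ℝ) ≤ ((n.choose 2 : ℕ) : ℝ) := by
        rw [hN]; linarith only [hm0x, F0, F1, F2]
      exact_mod_cast this)
    (by positivity) (by nlinarith only [ε0, ε1]) (by positivity) (by linarith only [ε1])
    (by positivity) (by linarith only [ε1]) (by positivity)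
    (by
      have h2 : (s : ℝ) / 2 - 1 / 2 ≤ ((s / 2 : ℕ) : ℝ) := by
        have : s ≤ 2 * (s / 2) + 1 := by omega
        have : (s : ℝ) ≤ 2 * ((s / 2 : ℕ) : ℝ) + 1 := by exact_mod_cast this
        linarith only [this]
      have h3 : ε * x / 4 ≤ ((s / 2 : ℕ) : ℝ) := by linarith only [h2, s1, hx1']
      have h4 : (ε * x / 4) * (ε * x / 4) ≤ ((s / 2 : ℕ) : ℝ) * ((s / 2 : ℕ) : ℝ) :=
        mul_le_mul h3 h3 (by positivity) (by positivity)
      rw [hN]
      linarith only [h4, ht0x, F6])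
    (by
      rw [hN]
      have h2 : 3 * x / 8 ≤ x / 2 - s := by linarith only [s2, F4, hx3]
      have h3 : (ε * x) * (3 * x / 8) ≤ (s : ℝ) * (x / 2 - s) :=
        mul_le_mul s1 h2 (by positivity) (by positivity)
      linarith only [h3, hm0x, F5])
    (by
      rw [hN]
      have h2 : x / 4 ≤ x / 2 - d - 3 * s := by linarith only [s2, d2, F4, hx3]
      have h3 : (2048 * ε * x) * (x / 4) ≤ (d : ℝ) * (x / 2 - d - 3 * s) :=
        mul_le_mul d1 h2 (by positivity) (by positivity)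
      linarith only [h3, hm0x, F5, F2', hx3])
    (by
      rw [hN]
      have h2 : x ^ 2 / 4 ≤ x * (x - 1) / 2 - m0 := by linarith only [hm0x, F1, F2, F0]
      have h3 : 16 * ε * (x ^ 2 / 4) ≤ 16 * ε * (x * (x - 1) / 2 - m0) :=
        mul_le_mul_of_nonneg_left h2 (by positivity)
      have h4 := mul_le_mul_of_nonneg_right s2 hx0.le
      linarith only [h3, h4, F2', hx3])
    (by
      have : (t0 : ℝ) + 2 * K ≤ m0 := by linarith only [t02, K2, hm0Γ, FΓ, hx3]
      exact_mod_cast this)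
    (by
      have : (t0 : ℝ) + K + b ≤ a := by linarith only [t02, K2, a2, b2, hεm0, hx3, F7, F8]
      exact_mod_cast this)
    (by
      have : (1 : ℝ) ≤ d := by linarith only [d1, hx1']
      exact_mod_cast this)
  -- the four error terms
  have hr : (2 * Real.exp (-1)) ^ n = 2 ^ n * Real.exp (-x) := by
    rw [mul_pow, ← Real.exp_nat_mul]
    congr 2
    rw [hx]; ring
  have hr4 : (4:ℝ) ^ n * Real.exp (-(2 * x)) ≤ (2 * Real.exp (-1)) ^ n := by
    have e1 : (4:ℝ) ^ n * Real.exp (-(2 * x)) = (2 * Real.exp (-1)) ^ n * (2 * Real.exp (-1)) ^ n := by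
      rw [hr]
      have : (4:ℝ) ^ n = 2 ^ n * 2 ^ n := by rw [← mul_pow]; norm_num
      rw [this]
      have : Real.exp (-(2 * x)) = Real.exp (-x) * Real.exp (-x) := by
        rw [← Real.exp_add]; congr 1; ring
      rw [this]; ring
    rw [e1]
    have e2 : (2 * Real.exp (-1)) ^ n ≤ 1 := by
      apply pow_le_one₀ (by positivity)
      have h := Real.add_one_le_exp (1:ℝ)
      rw [Real.exp_neg]
      rw [← div_eq_mul_inv, div_le_one (Real.exp_pos 1)]
      linarith only [h]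
    have e3 : 0 ≤ (2 * Real.exp (-1)) ^ n := by positivity
    exact mul_le_of_le_one_left e3 e2
  have powexp : ∀ (q : ℝ) (k : ℕ), 0 ≤ q → q ≤ 1 → x ≤ q * k → (1 - q) ^ k ≤ Real.exp (-x) := by
    intro q k _ hq1 hk
    calc (1 - q) ^ k ≤ (Real.exp (-q)) ^ k := by
          apply pow_le_pow_left₀ (by linarith)
          have := Real.add_one_le_exp (-q)
          linarith
      _ = Real.exp (-(q * k)) := by rw [← Real.exp_nat_mul]; congr 1; ring
      _ ≤ Real.exp (-x) := Real.exp_le_exp.mpr (by linarith)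
  have E1 : (2:ℝ) ^ n * (1 - ε ^ 2 / 16) ^ t0 ≤ (2 * Real.exp (-1)) ^ n := by
    rw [hr]
    apply mul_le_mul_of_nonneg_left _ (by positivity)
    apply powexp _ _ (by positivity) (by nlinarith only [ε0, ε1])
    have : ε ^ 2 / 16 * (C * x) = x := by rw [hC]; field_simp
    calc x = ε ^ 2 / 16 * (C * x) := this.symm
      _ ≤ ε ^ 2 / 16 * t0 := mul_le_mul_of_nonneg_left t01 (by positivity)
  have E2 : (2:ℝ) ^ n * (1 - ε / 4) ^ K ≤ (2 * Real.exp (-1)) ^ n := by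
    rw [hr]
    apply mul_le_mul_of_nonneg_left _ (by positivity)
    apply powexp _ _ (by positivity) (by linarith)
    have : ε / 4 * (B * x) = x := by rw [hB]; field_simp
    calc x = ε / 4 * (B * x) := this.symm
      _ ≤ ε / 4 * K := mul_le_mul_of_nonneg_left K1 (by positivity)
  have E3 : (4:ℝ) ^ n * (2 ^ a * Real.exp (-(512 * ε * m0 / 2))) ≤ (2 * Real.exp (-1)) ^ n := by
    refine le_trans ?_ hr4
    apply mul_le_mul_of_nonneg_left _ (by positivity)
    have h2 : (2:ℝ) ^ a ≤ Real.exp (a : ℝ) := by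
      have : Real.exp (a : ℝ) = (Real.exp 1) ^ a := by
        rw [← Real.exp_nat_mul, mul_one]
      rw [this]
      apply pow_le_pow_left₀ (by norm_num)
      have := Real.add_one_le_exp (1:ℝ)
      linarith
    calc (2:ℝ) ^ a * Real.exp (-(512 * ε * m0 / 2))
        ≤ Real.exp (a : ℝ) * Real.exp (-(512 * ε * m0 / 2)) :=
          mul_le_mul_of_nonneg_right h2 (Real.exp_pos _).le
      _ = Real.exp (a + -(512 * ε * m0 / 2)) := by rw [Real.exp_add]
      _ ≤ Real.exp (-(2 * x)) := Real.exp_le_exp.mpr (by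
          linarith only [a1, hεm0, F7, F8, hx3])
  have E4 : (4:ℝ) ^ n * ((1 / 2) ^ b * Real.exp (16 * ε * m0)) ≤ (2 * Real.exp (-1)) ^ n := by
    refine le_trans ?_ hr4
    apply mul_le_mul_of_nonneg_left _ (by positivity)
    have h2 : ((1:ℝ) / 2) ^ b ≤ Real.exp (-(b / 2) : ℝ) := by
      have : Real.exp (-(b / 2) : ℝ) = (Real.exp (-(1 / 2))) ^ b := by
        rw [← Real.exp_nat_mul]; congr 1; ring
      rw [this]
      apply pow_le_pow_left₀ (by norm_num)
      have := Real.add_one_le_exp (-(1 / 2) : ℝ)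
      linarith
    calc ((1:ℝ) / 2) ^ b * Real.exp (16 * ε * m0)
        ≤ Real.exp (-(b / 2) : ℝ) * Real.exp (16 * ε * m0) :=
          mul_le_mul_of_nonneg_right h2 (Real.exp_pos _).le
      _ = Real.exp (-(b / 2) + 16 * ε * m0) := by rw [Real.exp_add]
      _ ≤ Real.exp (-(2 * x)) := Real.exp_le_exp.mpr (by
          linarith only [b1, hεm0, F7, F8, hx3])
  have hstep : 1 - 4 * (2 * Real.exp (-1)) ^ n ≤ Pr n (fun σ => ∀ m, m0 ≤ m →
        n < 2 * (D (proc σ m)).card + s ∧ 2 * (D (proc σ m)).card ≤ n + 2 * d) := by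
    refine le_trans ?_ hmain
    linarith only [E1, E2, E3, E4]
  refine le_trans hstep (Pr_mono n ?_)
  intro σ hσ m hm1 _
  have hmm : m0 ≤ m := by rw [hm0]; exact Nat.ceil_le.mpr hm1
  obtain ⟨g1, g2⟩ := hσ m hmm
  have g1' : x < 2 * ((D (proc σ m)).card : ℝ) + s := by rw [hx]; exact_mod_cast g1
  have g2' : 2 * ((D (proc σ m)).card : ℝ) ≤ x + 2 * d := by rw [hx]; exact_mod_cast g2
  have hη : η = 20000 * ε := by rw [hε]; ring
  rw [abs_le]
  constructor
  · rw [hη]; linarith only [g1', s2, hx1']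
  · rw [hη]; linarith only [g2', d2, hx1']

lemma geo_tendsto : Tendsto (fun n : ℕ => 1 - 4 * (2 * Real.exp (-1)) ^ n) atTop (𝓝 1) := by
  have h : Tendsto (fun n : ℕ => (2 * Real.exp (-1)) ^ n) atTop (𝓝 0) := by
    apply tendsto_pow_atTop_nhds_zero_of_lt_one (by positivity)
    have h := Real.add_one_lt_exp (show (1:ℝ) ≠ 0 by norm_num)
    rw [Real.exp_neg, ← div_eq_mul_inv, div_lt_one (Real.exp_pos 1)]
    linarith
  have h2 := (h.const_mul 4).const_sub 1
  simpa using h2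

lemma ev_tendsto {c η : ℝ} (hc : 0 < c) (h0 : 0 < η) (h1 : η ≤ 1) :
    Tendsto (fun n : ℕ => Pr n (Ev c η n)) atTop (𝓝 1) :=
  tendsto_of_tendsto_of_tendsto_of_le_of_le' geo_tendsto tendsto_const_nhds
    (ev_bound hc h0 h1) (Eventually.of_forall (fun n => Pr_le_one n _))

/-- Diagonalisation. -/
theorem main {c : ℝ} (hc : 0 < c) :
    ∃ ε : ℕ → ℝ, Tendsto ε atTop (𝓝 0) ∧
      Tendsto (fun n : ℕ => Pr n (Ev c (ε n) n)) atTop (𝓝 1) := by
  classical
  set Q : ℕ → ℕ → Prop := fun n k => ∀ n' ≥ n, 1 - 1 / ((k : ℝ) + 1) ≤ Pr n' (Ev c (1 / ((k : ℝ) + 1)) n')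
    with hQ
  set κ : ℕ → ℕ := fun n => Nat.findGreatest (Q n) n with hκ
  have Q0 : ∀ n, Q n 0 := by
    intro n n' _
    simp only [Nat.cast_zero, zero_add, div_one, sub_self]
    rw [Pr]; positivity
  have hspec : ∀ n, Q n (κ n) := fun n => Nat.findGreatest_spec (Nat.zero_le n) (Q0 n)
  have hκtop : Tendsto κ atTop atTop := by
    rw [tendsto_atTop]
    intro k
    have h1 : ∀ᶠ n : ℕ in atTop, 1 - 1 / ((k : ℝ) + 1) ≤ Pr n (Ev c (1 / ((k : ℝ) + 1)) n) := by
      have h := ev_tendsto hc (η := 1 / ((k : ℝ) + 1)) (by positivity) (by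
        rw [div_le_one (by positivity)]
        have : (0:ℝ) ≤ k := by positivity
        linarith)
      apply (h.eventually (lt_mem_nhds (show 1 - 1 / ((k : ℝ) + 1) < 1 by
        have : (0:ℝ) < 1 / ((k : ℝ) + 1) := by positivity
        linarith))).mono
      intro n hn
      exact hn.le
    obtain ⟨n0, hn0⟩ := eventually_atTop.mp h1
    filter_upwards [eventually_ge_atTop (max n0 k)] with n hn
    apply Nat.le_findGreatest (le_trans (le_max_right _ _) hn)
    intro n' hn'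
    exact hn0 n' (le_trans (le_trans (le_max_left _ _) hn) hn')
  have hlim : Tendsto (fun n => 1 / ((κ n : ℝ) + 1)) atTop (𝓝 0) :=
    tendsto_one_div_add_atTop_nhds_zero_nat.comp hκtop
  refine ⟨fun n => 1 / ((κ n : ℝ) + 1), hlim, ?_⟩
  have hl : Tendsto (fun n => 1 - 1 / ((κ n : ℝ) + 1)) atTop (𝓝 1) := by
    have := hlim.const_sub 1
    simpa using this
  exact tendsto_of_tendsto_of_tendsto_of_le_of_le' hl tendsto_const_nhds
    (Eventually.of_forall (fun n => hspec n n le_rfl))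
    (Eventually.of_forall (fun n => Pr_le_one n _))

end Q43.Ko
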