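import Mathlib

/-!
Vertex covers, matchings and the structure of the optimal vertex covers of a Koenig graph.
-/

set_option linter.unusedSectionVars false

namespace Q43.Ko
open Finset

variable {V : Type*} [Fintype V] [DecidableEq V]

/-- `C` is a vertex cover of `G`. -/
def IsCover (G : SimpleGraph V) (C : Finset V) : Prop := ∀ u v, G.Adj u v → u ∈ C ∨ v ∈ C

/-- The vertex cover number. -/
noncomputable def tau (G : SimpleGraph V) : ℕ :=
  sInf {k | ∃ C : Finset V, IsCover G C ∧ C.card = k}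

/-- `M` is a matching of `G`: a set of edges, no two of which share a vertex. -/
def IsMatch (G : SimpleGraph V) (M : Finset (Sym2 V)) : Prop :=
  (∀ e ∈ M, e ∈ G.edgeSet) ∧ ∀ e ∈ M, ∀ f ∈ M, ∀ v, v ∈ e → v ∈ f → e = f

/-- The matching number. -/
noncomputable def nu (G : SimpleGraph V) : ℕ :=
  sSup {k | ∃ M : Finset (Sym2 V), IsMatch G M ∧ M.card = k}

/-- `C` is an optimal vertex cover of `G`. -/
def IsOpt (G : SimpleGraph V) (C : Finset V) : Prop := IsCover G C ∧ C.card = tau G

open Classical in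
/-- The union of all optimal vertex covers of `G`. -/
noncomputable def D (G : SimpleGraph V) : Finset V :=
  univ.filter (fun v => ∃ C : Finset V, IsOpt G C ∧ v ∈ C)

/-- The graph `G + e`. -/
def addE (G : SimpleGraph V) (e : Sym2 V) : SimpleGraph V := G ⊔ SimpleGraph.fromEdgeSet {e}

lemma exists_opt (G : SimpleGraph V) : ∃ C, IsOpt G C := by
  have : (tau G) ∈ {k | ∃ C : Finset V, IsCover G C ∧ C.card = k} := by
    apply Nat.sInf_mem
    exact ⟨_, univ, fun u v _ => Or.inl (mem_univ _), rfl⟩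
  obtain ⟨C, hC, h⟩ := this
  exact ⟨C, hC, h⟩

lemma tau_le {G : SimpleGraph V} {C : Finset V} (h : IsCover G C) : tau G ≤ C.card :=
  Nat.sInf_le ⟨C, h, rfl⟩

lemma bdd_nu (G : SimpleGraph V) :
    BddAbove {k | ∃ M : Finset (Sym2 V), IsMatch G M ∧ M.card = k} :=
  ⟨Fintype.card (Sym2 V), by rintro k ⟨M, _, rfl⟩; exact card_le_univ _⟩

lemma le_nu {G : SimpleGraph V} {M : Finset (Sym2 V)} (h : IsMatch G M) : M.card ≤ nu G :=
  le_csSup (bdd_nu G) ⟨M, h, rfl⟩

lemma exists_nu (G : SimpleGraph V) : ∃ M, IsMatch G M ∧ M.card = nu G := by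
  have : (nu G) ∈ {k | ∃ M : Finset (Sym2 V), IsMatch G M ∧ M.card = k} := by
    apply Nat.sSup_mem _ (bdd_nu G)
    exact ⟨_, ∅, ⟨by simp, by simp⟩, rfl⟩
  obtain ⟨M, hM, h⟩ := this
  exact ⟨M, hM, h⟩

lemma IsCover.mono {G H : SimpleGraph V} (h : G ≤ H) {C : Finset V} (hC : IsCover H C) :
    IsCover G C := fun u v huv => hC u v (h huv)

lemma IsMatch.mono {G H : SimpleGraph V} (h : G ≤ H) {M : Finset (Sym2 V)} (hM : IsMatch G M) :
    IsMatch H M := ⟨fun e he => SimpleGraph.edgeSet_mono h (hM.1 e he), hM.2⟩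

lemma tau_mono {G H : SimpleGraph V} (h : G ≤ H) : tau G ≤ tau H := by
  obtain ⟨C, hC, h2⟩ := exists_opt H
  rw [← h2]
  exact tau_le (hC.mono h)

lemma nu_mono {G H : SimpleGraph V} (h : G ≤ H) : nu G ≤ nu H := by
  obtain ⟨M, hM, h2⟩ := exists_nu G
  rw [← h2]
  exact le_nu (hM.mono h)

lemma endpoint {G : SimpleGraph V} {C : Finset V} (hC : IsCover G C) {e : Sym2 V}
    (he : e ∈ G.edgeSet) : ∃ v, v ∈ e ∧ v ∈ C := by
  induction e with
  | _ u v =>
    rw [SimpleGraph.mem_edgeSet] at he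
    rcases hC u v he with h | h
    · exact ⟨u, Sym2.mem_mk_left u v, h⟩
    · exact ⟨v, Sym2.mem_mk_right u v, h⟩

lemma nu_le_tau (G : SimpleGraph V) : nu G ≤ tau G := by
  obtain ⟨M, hM, h2⟩ := exists_nu G
  obtain ⟨C, hC, h3⟩ := exists_opt G
  rw [← h2, ← h3]
  have hf : ∀ e : Sym2 V, ∃ v, e ∈ M → v ∈ e ∧ v ∈ C := by
    intro e
    by_cases he : e ∈ M
    · obtain ⟨v, hv⟩ := endpoint hC (hM.1 e he)
      exact ⟨v, fun _ => hv⟩
    · exact ⟨e.out.1, fun h => absurd h he⟩
  choose f hf using hf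
  apply card_le_card_of_injOn f
  · intro e he
    exact (hf e he).2
  · intro e he e' he' h
    exact hM.2 e he e' he' (f e) (hf e he).1 (h ▸ (hf e' he').1)

lemma le_addE (G : SimpleGraph V) (e : Sym2 V) : G ≤ addE G e := le_sup_left

lemma addE_adj (G : SimpleGraph V) (e : Sym2 V) (u v : V) :
    (addE G e).Adj u v ↔ G.Adj u v ∨ (s(u, v) = e ∧ u ≠ v) := by
  simp [addE]

lemma cover_addE {G : SimpleGraph V} {C : Finset V} (hC : IsCover G C) {e : Sym2 V}
    {w : V} (hw : w ∈ e) (hwC : w ∈ C) : IsCover (addE G e) C := by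
  intro u v huv
  rw [addE_adj] at huv
  rcases huv with h | ⟨h, _⟩
  · exact hC u v h
  · rw [← h, Sym2.mem_iff] at hw
    rcases hw with rfl | rfl
    · exact Or.inl hwC
    · exact Or.inr hwC

lemma tau_addE_le (G : SimpleGraph V) (e : Sym2 V) : tau (addE G e) ≤ tau G + 1 := by
  obtain ⟨C, hC, h3⟩ := exists_opt G
  obtain ⟨w, hw⟩ : ∃ w, w ∈ e := ⟨e.out.1, Sym2.out_fst_mem e⟩
  have hC' : IsCover G (insert w C) := fun u v huv => by
    rcases hC u v huv with h | h
    · exact Or.inl (mem_insert_of_mem h)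
    · exact Or.inr (mem_insert_of_mem h)
  calc tau (addE G e) ≤ (insert w C).card := tau_le (cover_addE hC' hw (mem_insert_self _ _))
    _ ≤ C.card + 1 := card_insert_le _ _
    _ = _ := by rw [h3]

/-- A rejected pair has no end in an optimal cover. -/
lemma rejected {G : SimpleGraph V} (hG : tau G = nu G) {e : Sym2 V}
    (hr : tau (addE G e) ≠ nu (addE G e)) {C : Finset V} (hC : IsOpt G C) {w : V} (hw : w ∈ e) :
    w ∉ C := by
  intro hwC
  apply hr
  apply le_antisymm _ (nu_le_tau _)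
  calc tau (addE G e) ≤ C.card := tau_le (cover_addE hC.1 hw hwC)
    _ = tau G := hC.2
    _ = nu G := hG
    _ ≤ nu (addE G e) := nu_mono (le_addE G e)

open Classical in
/-- The set of vertices covered by `M`. -/
noncomputable def VM (M : Finset (Sym2 V)) : Finset V := univ.filter (fun v => ∃ e ∈ M, v ∈ e)

lemma mem_VM {M : Finset (Sym2 V)} {v : V} : v ∈ VM M ↔ ∃ e ∈ M, v ∈ e := by simp [VM]

lemma card_VM {G : SimpleGraph V} {M : Finset (Sym2 V)} (hM : IsMatch G M) :
    (VM M).card = 2 * M.card := by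
  classical
  have h1 : VM M = M.biUnion (fun e => univ.filter (fun v => v ∈ e)) := by
    ext v; simp [VM]
  rw [h1, card_biUnion]
  · have : ∀ e ∈ M, (univ.filter (fun v => v ∈ e)).card = 2 := by
      intro e he
      have he' := hM.1 e he
      induction e with
      | _ u v =>
        rw [SimpleGraph.mem_edgeSet] at he'
        have : (univ.filter (fun w => w ∈ s(u, v))) = {u, v} := by
          ext w; simp
        rw [this, card_pair he'.ne]
    rw [sum_congr rfl this, sum_const, smul_eq_mul, mul_comm]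
  · intro e he f hf hef
    change Disjoint _ _
    rw [disjoint_left]
    intro v hv hv'
    simp only [mem_filter, mem_univ, true_and] at hv hv'
    exact hef (hM.2 e he f hf v hv hv')

/-- A matching can be covered by a maximum one. -/
lemma exists_max_extending {G : SimpleGraph V} {M : Finset (Sym2 V)} (hM : IsMatch G M) :
    ∃ M', IsMatch G M' ∧ M'.card = nu G ∧ VM M ⊆ VM M' := by
  classical
  -- maximise the common part
  set F : Finset (Finset (Sym2 V)) := univ.filter (fun M' => IsMatch G M' ∧ M'.card = nu G) with hF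
  have hFne : F.Nonempty := by
    obtain ⟨M', h1, h2⟩ := exists_nu G
    exact ⟨M', by simp [hF, h1, h2]⟩
  obtain ⟨M', hM'F, hmax⟩ := exists_max_image F (fun M' => (M' ∩ M).card) hFne
  simp only [hF, mem_filter, mem_univ, true_and] at hM'F hmax
  obtain ⟨hM', hc⟩ := hM'F
  refine ⟨M', hM', hc, ?_⟩
  intro v hv
  by_contra hv'
  rw [mem_VM] at hv hv'
  push Not at hv'
  obtain ⟨e, heM, hve⟩ := hv
  have heM' : e ∉ M' := fun h => hv' e h hve
  obtain ⟨w, rfl⟩ : ∃ w, e = s(v, w) := by
    obtain ⟨w, hw⟩ := Sym2.mem_iff_exists.mp hve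
    exact ⟨w, hw⟩
  by_cases hw : ∃ f ∈ M', w ∈ f
  · obtain ⟨f, hf, hwf⟩ := hw
    have hfM : f ∉ M := by
      intro h
      have := hM.2 f h _ heM w hwf (Sym2.mem_mk_right v w)
      rw [this] at hf
      exact heM' hf
    have hne : s(v, w) ∉ M'.erase f := fun h => heM' (mem_of_mem_erase h)
    have hnew : IsMatch G (insert s(v, w) (M'.erase f)) := by
      constructor
      · intro g hg
        rcases mem_insert.mp hg with rfl | hg
        · exact hM.1 _ heM
        · exact hM'.1 _ (mem_of_mem_erase hg)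
      · have key : ∀ g ∈ M'.erase f, ∀ x, x ∈ s(v, w) → x ∉ g := by
          intro g hg x hx hxg
          rw [Sym2.mem_iff] at hx
          rcases hx with rfl | rfl
          · exact hv' g (mem_of_mem_erase hg) hxg
          · exact (ne_of_mem_erase hg) (hM'.2 g (mem_of_mem_erase hg) f hf x hxg hwf)
        intro g hg g' hg' x hx hx'
        rcases mem_insert.mp hg with rfl | hg
        · rcases mem_insert.mp hg' with rfl | hg'
          · rfl
          · exact absurd hx' (key g' hg' x hx)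
        · rcases mem_insert.mp hg' with rfl | hg'
          · exact absurd hx (key g hg x hx')
          · exact hM'.2 g (mem_of_mem_erase hg) g' (mem_of_mem_erase hg') x hx hx'
    have hcard : (insert s(v, w) (M'.erase f)).card = nu G := by
      rw [card_insert_of_notMem hne, card_erase_of_mem hf, ← hc]
      have : 0 < M'.card := card_pos.mpr ⟨f, hf⟩
      omega
    have := hmax _ ⟨hnew, hcard⟩
    have h2 : insert s(v, w) (M'.erase f) ∩ M = insert s(v, w) (M' ∩ M) := by
      ext g
      simp only [mem_inter, mem_insert, mem_erase]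
      constructor
      · rintro ⟨h | ⟨h1, h2⟩, h3⟩
        · exact Or.inl h
        · exact Or.inr ⟨h2, h3⟩
      · rintro (h | ⟨h1, h2⟩)
        · exact ⟨Or.inl h, h ▸ heM⟩
        · refine ⟨Or.inr ⟨?_, h1⟩, h2⟩
          rintro rfl
          exact hfM h2
    rw [h2, card_insert_of_notMem (fun h => heM' (mem_inter.mp h).1)] at this
    omega
  · push Not at hw
    have hnew : IsMatch G (insert s(v, w) M') := by
      constructor
      · intro g hg
        rcases mem_insert.mp hg with rfl | hg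
        · exact hM.1 _ heM
        · exact hM'.1 _ hg
      · have key : ∀ g ∈ M', ∀ x, x ∈ s(v, w) → x ∉ g := by
          intro g hg x hx hxg
          rw [Sym2.mem_iff] at hx
          rcases hx with rfl | rfl
          · exact hv' g hg hxg
          · exact hw g hg hxg
        intro g hg g' hg' x hx hx'
        rcases mem_insert.mp hg with rfl | hg
        · rcases mem_insert.mp hg' with rfl | hg'
          · rfl
          · exact absurd hx' (key g' hg' x hx)
        · rcases mem_insert.mp hg' with rfl | hg'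
          · exact absurd hx (key g hg x hx')
          · exact hM'.2 g hg g' hg' x hx hx'
    have := le_nu hnew
    rw [card_insert_of_notMem heM', hc] at this
    omega

lemma two_nu_le (G : SimpleGraph V) : 2 * nu G ≤ Fintype.card V := by
  obtain ⟨M, hM, h2⟩ := exists_nu G
  rw [← h2, ← card_VM hM]
  exact card_le_univ _

/-- Koenig: an optimal cover is matched into its complement. -/
lemma exists_hall {G : SimpleGraph V} (hG : tau G = nu G) {C : Finset V} (hC : IsOpt G C) :
    ∃ φ : V → V, (∀ v ∈ C, φ v ∉ C ∧ G.Adj v (φ v)) ∧ Set.InjOn φ C := by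
  classical
  obtain ⟨M, hM, h2⟩ := exists_nu G
  have hf : ∀ e : Sym2 V, ∃ v, e ∈ M → v ∈ e ∧ v ∈ C := by
    intro e
    by_cases he : e ∈ M
    · obtain ⟨v, hv⟩ := endpoint hC.1 (hM.1 e he)
      exact ⟨v, fun _ => hv⟩
    · exact ⟨e.out.1, fun h => absurd h he⟩
  choose f hf using hf
  have hinj : Set.InjOn f M := by
    intro e he e' he' h
    exact hM.2 e he e' he' (f e) (hf e he).1 (h ▸ (hf e' he').1)
  have himg : M.image f = C := by
    apply eq_of_subset_of_card_le
    · intro v hv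
      obtain ⟨e, he, rfl⟩ := mem_image.mp hv
      exact (hf e he).2
    · rw [card_image_of_injOn hinj, h2, hC.2, hG]
  have hphi : ∀ v : V, ∃ w, v ∈ C → (w ∉ C ∧ G.Adj v w ∧ s(v, w) ∈ M) := by
    intro v
    by_cases hv : v ∈ C
    · rw [← himg] at hv
      obtain ⟨e, he, hev⟩ := mem_image.mp hv
      have hve : v ∈ e := hev ▸ (hf e he).1
      obtain ⟨w, rfl⟩ := Sym2.mem_iff_exists.mp hve
      have hadj : G.Adj v w := by
        have := hM.1 _ he
        rwa [SimpleGraph.mem_edgeSet] at this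
      refine ⟨w, fun _ => ⟨?_, hadj, he⟩⟩
      intro hw
      rw [← himg] at hw
      obtain ⟨e', he', hew⟩ := mem_image.mp hw
      have hwe : w ∈ e' := hew ▸ (hf e' he').1
      have := hM.2 _ he e' he' w (Sym2.mem_mk_right v w) hwe
      subst this
      exact hadj.ne (hev.symm.trans hew)
    · exact ⟨v, fun h => absurd h hv⟩
  choose φ hφ using hphi
  refine ⟨φ, fun v hv => ⟨(hφ v hv).1, (hφ v hv).2.1⟩, ?_⟩
  intro v hv v' hv' h
  have h1 := (hφ v hv).2.2
  have h3 := (hφ v' hv').2.2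
  have h4 := hM.2 _ h1 _ h3 (φ v) (Sym2.mem_mk_right _ _) (h ▸ Sym2.mem_mk_right _ _)
  rw [h] at h4
  rw [Sym2.eq_iff] at h4
  rcases h4 with ⟨h4, _⟩ | ⟨h4, h5⟩
  · exact h4
  · rw [h4, h5]

open Classical in
/-- Neighbours of `T` outside `C`. -/
noncomputable def Nb (G : SimpleGraph V) (C T : Finset V) : Finset V :=
  univ.filter (fun w => w ∉ C ∧ ∃ v ∈ T, G.Adj v w)

lemma mem_Nb {G : SimpleGraph V} {C T : Finset V} {w : V} :
    w ∈ Nb G C T ↔ w ∉ C ∧ ∃ v ∈ T, G.Adj v w := by simp [Nb]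

lemma hall_le {G : SimpleGraph V} (hG : tau G = nu G) {C : Finset V} (hC : IsOpt G C)
    {T : Finset V} (hT : T ⊆ C) : T.card ≤ (Nb G C T).card := by
  obtain ⟨φ, h1, h2⟩ := exists_hall hG hC
  apply card_le_card_of_injOn φ
  · intro v hv
    exact mem_Nb.mpr ⟨(h1 v (hT hv)).1, v, hv, (h1 v (hT hv)).2⟩
  · intro v hv w hw h
    exact h2 (hT hv) (hT hw) h

lemma tight_union {G : SimpleGraph V} (hG : tau G = nu G) {C : Finset V} (hC : IsOpt G C)
    {S T : Finset V} (hS : S ⊆ C) (hS' : (Nb G C S).card = S.card)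
    (hT' : (Nb G C T).card = T.card) :
    (Nb G C (S ∪ T)).card ≤ (S ∪ T).card := by
  have h1 : Nb G C (S ∪ T) = Nb G C S ∪ Nb G C T := by
    ext w
    simp only [mem_Nb, mem_union]
    constructor
    · rintro ⟨h, v, hv | hv, ha⟩
      · exact Or.inl ⟨h, v, hv, ha⟩
      · exact Or.inr ⟨h, v, hv, ha⟩
    · rintro (⟨h, v, hv, ha⟩ | ⟨h, v, hv, ha⟩)
      · exact ⟨h, v, Or.inl hv, ha⟩
      · exact ⟨h, v, Or.inr hv, ha⟩
  have h2 : Nb G C (S ∩ T) ⊆ Nb G C S ∩ Nb G C T := by
    intro w
    simp only [mem_Nb, mem_inter]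
    rintro ⟨h, v, ⟨hv1, hv2⟩, ha⟩
    exact ⟨⟨h, v, hv1, ha⟩, ⟨h, v, hv2, ha⟩⟩
  have h3 := hall_le hG hC (T := S ∩ T) (fun v hv => hS (mem_inter.mp hv).1)
  have h4 := card_le_card h2
  have h5 := card_union_add_card_inter (Nb G C S) (Nb G C T)
  have h6 := card_union_add_card_inter S T
  rw [h1]
  omega

lemma opt_diff {G : SimpleGraph V} {C C' : Finset V} (hC : IsOpt G C)
    (hC' : IsOpt G C') : Nb G C (C \ C') ⊆ C' \ C ∧ (C' \ C).card = (C \ C').card := by
  constructor
  · intro w hw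
    obtain ⟨h, v, hv, ha⟩ := mem_Nb.mp hw
    rw [mem_sdiff] at hv ⊢
    rcases hC'.1 v w ha with h' | h'
    · exact absurd h' hv.2
    · exact ⟨h', h⟩
  · have h1 := card_sdiff_add_card_inter C' C
    have h2 := card_sdiff_add_card_inter C C'
    rw [inter_comm] at h2
    have := hC.2
    have := hC'.2
    omega

lemma opt_diff_eq {G : SimpleGraph V} (hG : tau G = nu G) {C C' : Finset V} (hC : IsOpt G C)
    (hC' : IsOpt G C') : Nb G C (C \ C') = C' \ C ∧ (Nb G C (C \ C')).card = (C \ C').card := by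
  obtain ⟨h1, h2⟩ := opt_diff hC hC'
  have h3 := hall_le hG hC (T := C \ C') sdiff_subset
  have h4 : Nb G C (C \ C') = C' \ C := eq_of_subset_of_card_le h1 (by omega)
  exact ⟨h4, by rw [h4, h2]⟩

end Q43.Ko
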