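import Pool.Agent.Q43.Ko.Det
import Pool.Agent.Q43.Ko.Prob

/-!
The random Koenig graph process: union bounds.
-/

set_option linter.unusedSectionVars false

namespace Q43.Ko
open Finset

variable {n : ℕ}

lemma Yv_local (σ τ : Ordering n) (i : Fin (n.choose 2)) (h : ∀ i' < i, σ i' = τ i') :
    Yv σ i.val = Yv τ i.val := by
  rw [Yv, Yv, proc_local σ τ i.val (fun i' hi' => h i' (Fin.lt_def.mpr hi'))]

lemma union_bound {Ω ι : Type*} [Fintype ι] [Fintype Ω] (Q : ι → Ω → Prop) (P : Ω → Prop) (r : ℝ)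
    (h : ∀ i, (cnt (Q i) : ℝ) ≤ r) (hP : ∀ w, P w → ∃ i, Q i w) :
    (cnt P : ℝ) ≤ Fintype.card ι * r := by
  classical
  simp only [← filter_cnt (inst := Classical.decPred _)] at h ⊢
  have hsub : (@Finset.filter Ω P (Classical.decPred _) univ) ⊆
      univ.biUnion (fun i => @Finset.filter Ω (Q i) (Classical.decPred _) univ) := by
    intro w hw
    simp only [mem_filter, mem_univ, true_and, mem_biUnion] at hw ⊢
    exact hP w hw
  have h1 := le_trans (card_le_card hsub) card_biUnion_le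
  calc ((@Finset.filter Ω P (Classical.decPred _) univ).card : ℝ)
      ≤ ∑ i : ι, ((@Finset.filter Ω (Q i) (Classical.decPred _) univ).card : ℝ) := by
        exact_mod_cast h1
    _ ≤ ∑ _i : ι, r := sum_le_sum (fun i _ => h i)
    _ = Fintype.card ι * r := by rw [sum_const, nsmul_eq_mul, card_univ]

/-- The number of orderings as a real number. -/
noncomputable def Tot (n : ℕ) : ℝ := (Fintype.card (Ordering n) : ℝ)

lemma Tot_nonneg : 0 ≤ Tot n := by rw [Tot]; positivity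

/-- The four good properties. -/
def Good1 (σ : Ordering n) (s t0 : ℕ) : Prop := ∀ S : Finset (Fin n), s ≤ S.card →
      ∃ i : Fin (n.choose 2), i.val < t0 ∧ ∀ v ∈ (σ i).1, v ∈ S

def Good2 (σ : Ordering n) (s m0 K : ℕ) : Prop := ∀ I : Finset (Fin n), n ≤ 2 * I.card →
      K ≤ cnt (fun i : Fin (n.choose 2) => i.val < m0 ∧ s ≤ (I \ Yv σ i.val).card) →
      ∃ i : Fin (n.choose 2), i.val < m0 ∧ s ≤ (I \ Yv σ i.val).card ∧
        σ i ∈ Asub s I (Yv σ i.val)

def Good3 (σ : Ordering n) (s d m0 a : ℕ) : Prop :=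
  ∀ T B : Finset (Fin n), Disjoint T B → d ≤ T.card → n ≤ 2 * B.card + 2 * d + 6 * s →
      a ≤ cnt (fun i : Fin (n.choose 2) => i.val < m0 ∧ σ i ∈ cross T B)

def Good4 (σ : Ordering n) (s m0 b : ℕ) : Prop :=
  ∀ T B : Finset (Fin n), Disjoint T B →
      cnt (fun i : Fin (n.choose 2) => i.val < m0 ∧ (T ∩ Yv σ i.val).card ≤ 2 * s ∧
        σ i ∈ cross (T ∩ Yv σ i.val) B) < b

lemma bad1 {s t0 : ℕ} (ht : t0 ≤ n.choose 2) {q : ℝ} (q0 : 0 ≤ q) (q1 : q < 1)
    (h : q * (n.choose 2 : ℕ) ≤ ((s / 2 : ℕ) : ℝ) * ((s / 2 : ℕ) : ℝ) - t0) :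
    (cnt (fun σ : Ordering n => ¬ Good1 σ s t0) : ℝ)
      ≤ 2 ^ n * ((1 - q) ^ t0 * Tot n) := by
  have hb : (0:ℝ) ≤ (1 - q) ^ t0 * Tot n :=
    mul_nonneg (pow_nonneg (by linarith) _) Tot_nonneg
  have := union_bound (ι := Finset (Fin n)) (fun (S : Finset (Fin n)) (σ : Ordering n) =>
      s ≤ S.card ∧ ∀ i : Fin (n.choose 2), i.val < t0 → ¬ ∀ v ∈ (σ i).1, v ∈ S)
      (fun σ : Ordering n => ¬ Good1 σ s t0) ((1 - q) ^ t0 * Tot n) ?_ ?_
  · rw [Fintype.card_finset, Fintype.card_fin] at this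
    exact_mod_cast this
  · intro S
    by_cases hS : s ≤ S.card
    · -- two disjoint halves
      obtain ⟨P, hPS, hPc⟩ := exists_subset_card_eq (show s / 2 ≤ S.card by omega)
      obtain ⟨Q, hQS, hQc⟩ := exists_subset_card_eq (s := S \ P) (n := s / 2) (by
        rw [card_sdiff_of_subset hPS, hPc]; omega)
      have hPQ : Disjoint P Q := by
        rw [disjoint_left]
        intro v hv hv'
        exact (mem_sdiff.mp (hQS hv')).2 hv
      have hh := hit' (N := n.choose 2) (E := Edge n) t0 ht (fun _ _ => True)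
        (fun _ _ => cross P Q) (fun _ _ _ _ => Iff.rfl) (fun _ _ _ _ => rfl) q q0 q1
        (by
          intro i σ _
          rw [card_cross hPQ, hPc, hQc]
          push_cast
          exact_mod_cast h) t0
      refine le_trans ?_ hh
      rw [Nat.cast_le]
      apply cnt_mono
      intro σ hσ
      refine ⟨?_, ?_⟩
      · simp only [and_true]
        rw [cnt_lt ht]
      · intro i hi _ hin
        apply hσ.2 i hi
        rw [mem_cross] at hin
        obtain ⟨u, hu, v, hv, huv⟩ := hin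
        intro w hw
        rw [huv, Sym2.mem_iff] at hw
        rcases hw with rfl | rfl
        · exact hPS hu
        · exact (mem_sdiff.mp (hQS hv)).1
    · rw [cnt_false]
      · simpa using hb
      · intro σ h
        exact hS h.1
  · intro σ hσ
    rw [Good1] at hσ
    push Not at hσ
    obtain ⟨S, h1, h2⟩ := hσ
    refine ⟨S, h1, ?_⟩
    intro i hi h3
    obtain ⟨v, hv, hv'⟩ := h2 i hi
    exact hv' (h3 v hv)

lemma bad2 {s m0 K : ℕ} (hm : m0 ≤ n.choose 2) {q : ℝ} (q0 : 0 ≤ q) (q1 : q < 1)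
    (h : q * (n.choose 2 : ℕ) ≤ (s : ℝ) * ((n : ℝ) / 2 - s) - m0) :
    (cnt (fun σ : Ordering n => ¬ Good2 σ s m0 K) : ℝ)
      ≤ 2 ^ n * ((1 - q) ^ K * Tot n) := by
  have hb : (0:ℝ) ≤ (1 - q) ^ K * Tot n :=
    mul_nonneg (pow_nonneg (by linarith) _) Tot_nonneg
  have := union_bound (ι := Finset (Fin n)) (fun (I : Finset (Fin n)) (σ : Ordering n) =>
      n ≤ 2 * I.card ∧ K ≤ cnt (fun i : Fin (n.choose 2) =>
        i.val < m0 ∧ s ≤ (I \ Yv σ i.val).card) ∧
        ∀ i : Fin (n.choose 2), i.val < m0 → s ≤ (I \ Yv σ i.val).card →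
        σ i ∉ Asub s I (Yv σ i.val))
      (fun σ : Ordering n => ¬ Good2 σ s m0 K) ((1 - q) ^ K * Tot n) ?_ ?_
  · rw [Fintype.card_finset, Fintype.card_fin] at this
    exact_mod_cast this
  · intro I
    by_cases hI : n ≤ 2 * I.card
    · have hh := hit' (N := n.choose 2) (E := Edge n) m0 hm
        (fun i σ => s ≤ (I \ Yv σ i.val).card)
        (fun i σ => Asub s I (Yv σ i.val))
        (fun i σ τ h => by rw [Yv_local σ τ i h]) (fun i σ τ h => by rw [Yv_local σ τ i h]) q q0 q1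
        (by
          intro i σ hs
          obtain ⟨W, hW1, hW2, hW3⟩ := Asub_spec s I (Yv σ i.val) hs
          rw [hW3, card_cross disjoint_sdiff, hW2]
          have hWI : W ⊆ I := fun v hv => (mem_sdiff.mp (hW1 hv)).1
          have h1 := card_sdiff_add_card_inter I W
          rw [inter_eq_right.mpr hWI, hW2] at h1
          have h2 : ((I \ W).card : ℝ) + s = I.card := by exact_mod_cast h1
          have h3 : (n : ℝ) ≤ 2 * I.card := by exact_mod_cast hI
          push_cast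
          have h4 : (s : ℝ) * ((n : ℝ) / 2 - s) ≤ s * ((I \ W).card : ℝ) := by
            apply mul_le_mul_of_nonneg_left _ (by positivity)
            linarith
          linarith) K
      refine le_trans ?_ hh
      rw [Nat.cast_le]
      apply cnt_mono
      intro σ hσ
      exact ⟨hσ.2.1, hσ.2.2⟩
    · rw [cnt_false]
      · simpa using hb
      · intro σ h
        exact hI h.1
  · intro σ hσ
    rw [Good2] at hσ
    push Not at hσ
    obtain ⟨S, h1, h2, h3⟩ := hσ
    exact ⟨S, h1, h2, h3⟩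

lemma bad3 {s d m0 a : ℕ} (hm : m0 ≤ n.choose 2) {q : ℝ} (q0 : 0 ≤ q) (q1 : q < 1)
    (h : q * (n.choose 2 : ℕ) ≤ (d : ℝ) * ((n : ℝ) / 2 - d - 3 * s) - m0) :
    (cnt (fun σ : Ordering n => ¬ Good3 σ s d m0 a) : ℝ)
      ≤ 4 ^ n * (2 ^ a * Real.exp (-(q * m0 / 2)) * Tot n) := by
  have hb : (0:ℝ) ≤ 2 ^ a * Real.exp (-(q * m0 / 2)) * Tot n :=
    mul_nonneg (by positivity) Tot_nonneg
  have := union_bound (ι := Finset (Fin n) × Finset (Fin n)) (fun p (σ : Ordering n) =>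
      Disjoint p.1 p.2 ∧ d ≤ p.1.card ∧ n ≤ 2 * p.2.card + 2 * d + 6 * s ∧
      cnt (fun i : Fin (n.choose 2) => i.val < m0 ∧ σ i ∈ cross p.1 p.2) < a)
      (fun σ : Ordering n => ¬ Good3 σ s d m0 a) (2 ^ a * Real.exp (-(q * m0 / 2)) * Tot n) ?_ ?_
  · rw [Fintype.card_prod, Fintype.card_finset, Fintype.card_fin] at this
    have e : ((2 ^ n * 2 ^ n : ℕ) : ℝ) = 4 ^ n := by
      rw [← mul_pow]; norm_num
    rw [e] at this
    exact this
  · intro p
    by_cases hp : Disjoint p.1 p.2 ∧ d ≤ p.1.card ∧ n ≤ 2 * p.2.card + 2 * d + 6 * s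
    · have hh := low' (N := n.choose 2) (E := Edge n) m0 hm
        (fun _ _ => cross p.1 p.2) (fun _ _ _ _ => rfl) q q0 q1
        (by
          intro i σ
          rw [card_cross hp.1]
          push_cast
          have h1 : (d : ℝ) ≤ p.1.card := by exact_mod_cast hp.2.1
          have h2 : (n : ℝ) ≤ 2 * p.2.card + 2 * d + 6 * s := by exact_mod_cast hp.2.2
          have h3 : (d : ℝ) * ((n : ℝ) / 2 - d - 3 * s) ≤ (d : ℝ) * p.2.card := by
            apply mul_le_mul_of_nonneg_left _ (by positivity)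
            linarith
          have h4 : (d : ℝ) * p.2.card ≤ p.1.card * p.2.card := by
            apply mul_le_mul_of_nonneg_right h1 (by positivity)
          linarith) a
      refine le_trans ?_ hh
      rw [Nat.cast_le]
      apply cnt_mono
      intro σ hσ
      exact hσ.2.2.2.le
    · rw [cnt_false]
      · simpa using hb
      · intro σ h
        exact hp ⟨h.1, h.2.1, h.2.2.1⟩
  · intro σ hσ
    rw [Good3] at hσ
    push Not at hσ
    obtain ⟨T, B, h1, h2, h3, h4⟩ := hσ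
    exact ⟨(T, B), h1, h2, h3, h4⟩

lemma bad4 {s m0 b : ℕ} (hm : m0 ≤ n.choose 2) {q : ℝ} (q0 : 0 ≤ q)
    (h : 2 * (s : ℝ) * n ≤ q * (((n.choose 2 : ℕ) : ℝ) - m0)) :
    (cnt (fun σ : Ordering n => ¬ Good4 σ s m0 b) : ℝ)
      ≤ 4 ^ n * ((1 / 2) ^ b * Real.exp (q * m0) * Tot n) := by
  classical
  have hb : (0:ℝ) ≤ (1 / 2) ^ b * Real.exp (q * m0) * Tot n :=
    mul_nonneg (by positivity) Tot_nonneg
  have := union_bound (ι := Finset (Fin n) × Finset (Fin n)) (fun p (σ : Ordering n) =>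
      Disjoint p.1 p.2 ∧
      b ≤ cnt (fun i : Fin (n.choose 2) => i.val < m0 ∧ (p.1 ∩ Yv σ i.val).card ≤ 2 * s ∧
        σ i ∈ cross (p.1 ∩ Yv σ i.val) p.2))
      (fun σ : Ordering n => ¬ Good4 σ s m0 b) ((1 / 2) ^ b * Real.exp (q * m0) * Tot n) ?_ ?_
  · rw [Fintype.card_prod, Fintype.card_finset, Fintype.card_fin] at this
    have e : ((2 ^ n * 2 ^ n : ℕ) : ℝ) = 4 ^ n := by
      rw [← mul_pow]; norm_num
    rw [e] at this
    exact this
  · intro p
    by_cases hp : Disjoint p.1 p.2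
    · have hh := upp' (N := n.choose 2) (E := Edge n) m0 hm
        (fun i σ => if (p.1 ∩ Yv σ i.val).card ≤ 2 * s then cross (p.1 ∩ Yv σ i.val) p.2 else ∅)
        (fun i σ τ h => by simp only [Yv_local σ τ i h]) q q0
        (by
          intro i σ
          have hq : (0:ℝ) ≤ q * (((n.choose 2 : ℕ) : ℝ) - m0) := le_trans (by positivity) h
          split_ifs with hc
          · rw [card_cross (disjoint_of_subset_left inter_subset_left hp)]
            refine le_trans ?_ h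
            push_cast
            have h1 : ((p.1 ∩ Yv σ i.val).card : ℝ) ≤ 2 * s := by exact_mod_cast hc
            have h2 : (p.2.card : ℝ) ≤ n := by
              have := card_le_univ p.2
              rw [Fintype.card_fin] at this
              exact_mod_cast this
            exact mul_le_mul h1 h2 (by positivity) (by positivity)
          · simpa using hq) b
      refine le_trans ?_ hh
      rw [Nat.cast_le]
      apply cnt_mono
      intro σ hσ
      refine le_trans hσ.2 (cnt_mono ?_)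
      intro i hi
      rw [if_pos hi.2.1]
      exact ⟨hi.1, hi.2.2⟩
    · rw [cnt_false]
      · simpa using hb
      · intro σ h
        exact hp h.1
  · intro σ hσ
    rw [Good4] at hσ
    push Not at hσ
    obtain ⟨T, B, h1, h2⟩ := hσ
    exact ⟨(T, B), h1, h2⟩

theorem det' (σ : Ordering n) {m0 t0 K a b s d : ℕ}
    (G1 : Good1 σ s t0) (G2 : Good2 σ s m0 K) (G3 : Good3 σ s d m0 a) (G4 : Good4 σ s m0 b)
    (hK : t0 + 2 * K ≤ m0) (hm0 : m0 ≤ n.choose 2) (hab : t0 + K + b ≤ a) (hd : 1 ≤ d)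
    {m : ℕ} (hm : m0 ≤ m) :
    n < 2 * (D (proc σ m)).card + s ∧ 2 * (D (proc σ m)).card ≤ n + 2 * d := by
  apply det σ G1 _ _ _ hK hm0 hab hd hm
  · simp only [filter_cnt]; exact G2
  · simp only [filter_cnt]; exact G3
  · simp only [filter_cnt]; exact G4

/-- The probability of an event for the uniformly random ordering. -/
noncomputable def Pr (n : ℕ) (P : Ordering n → Prop) : ℝ :=
  (Nat.card {σ : Ordering n // P σ} : ℝ) / (Nat.card (Ordering n) : ℝ)

lemma Pr_eq (n : ℕ) (P : Ordering n → Prop) : Pr n P = (cnt P : ℝ) / Tot n := by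
  classical
  rw [Pr, Tot, Nat.card_eq_fintype_card, Nat.card_eq_fintype_card, Fintype.card_subtype,
    filter_cnt]

lemma Tot_pos : 0 < Tot n := by
  rw [Tot]
  have : Nonempty (Ordering n) := by
    have h := Sym2.card_subtype_not_diag (α := Fin n)
    rw [Fintype.card_fin] at h
    exact ⟨(Fintype.equivFinOfCardEq h).symm⟩
  exact_mod_cast Fintype.card_pos

/-- All four estimates together. -/
theorem main_bound {m0 t0 K a b s d : ℕ} {q1 q2 q3 q4 : ℝ} (ht : t0 ≤ n.choose 2)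
    (hm : m0 ≤ n.choose 2)
    (h10 : 0 ≤ q1) (h11 : q1 < 1) (h20 : 0 ≤ q2) (h21 : q2 < 1) (h30 : 0 ≤ q3) (h31 : q3 < 1)
    (h40 : 0 ≤ q4)
    (H1 : q1 * (n.choose 2 : ℕ) ≤ ((s / 2 : ℕ) : ℝ) * ((s / 2 : ℕ) : ℝ) - t0)
    (H2 : q2 * (n.choose 2 : ℕ) ≤ (s : ℝ) * ((n : ℝ) / 2 - s) - m0)
    (H3 : q3 * (n.choose 2 : ℕ) ≤ (d : ℝ) * ((n : ℝ) / 2 - d - 3 * s) - m0)
    (H4 : 2 * (s : ℝ) * n ≤ q4 * (((n.choose 2 : ℕ) : ℝ) - m0))
    (hK : t0 + 2 * K ≤ m0) (hab : t0 + K + b ≤ a) (hd : 1 ≤ d) :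
    1 - (2 ^ n * (1 - q1) ^ t0 + 2 ^ n * (1 - q2) ^ K
      + 4 ^ n * (2 ^ a * Real.exp (-(q3 * m0 / 2))) + 4 ^ n * ((1 / 2) ^ b * Real.exp (q4 * m0)))
      ≤ Pr n (fun σ => ∀ m, m0 ≤ m →
        n < 2 * (D (proc σ m)).card + s ∧ 2 * (D (proc σ m)).card ≤ n + 2 * d) := by
  rw [Pr_eq]
  set G : Ordering n → Prop := fun σ => ∀ m, m0 ≤ m →
        n < 2 * (D (proc σ m)).card + s ∧ 2 * (D (proc σ m)).card ≤ n + 2 * d with hG
  have h1 : cnt (fun σ => ¬ G σ) ≤ cnt (fun σ : Ordering n => ¬ Good1 σ s t0 ∨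
      (¬ Good2 σ s m0 K ∨ (¬ Good3 σ s d m0 a ∨ ¬ Good4 σ s m0 b))) := by
    apply cnt_mono
    intro σ hσ
    by_contra hcon
    push Not at hcon
    obtain ⟨g1, g2, g3, g4⟩ := hcon
    exact hσ (fun m hm' => det' σ g1 g2 g3 g4 hK hm hab hd hm')
  have h2 : cnt (fun σ => ¬ G σ) ≤ cnt (fun σ : Ordering n => ¬ Good1 σ s t0) +
      (cnt (fun σ : Ordering n => ¬ Good2 σ s m0 K) +
      (cnt (fun σ : Ordering n => ¬ Good3 σ s d m0 a) +
      cnt (fun σ : Ordering n => ¬ Good4 σ s m0 b))) := by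
    refine le_trans h1 (le_trans (cnt_or _ _) ?_)
    apply Nat.add_le_add_left
    refine le_trans (cnt_or _ _) ?_
    apply Nat.add_le_add_left
    exact cnt_or _ _
  have h3 : (cnt (fun σ => ¬ G σ) : ℝ) ≤ (cnt (fun σ : Ordering n => ¬ Good1 σ s t0) : ℝ) +
      ((cnt (fun σ : Ordering n => ¬ Good2 σ s m0 K) : ℝ) +
      ((cnt (fun σ : Ordering n => ¬ Good3 σ s d m0 a) : ℝ) +
      (cnt (fun σ : Ordering n => ¬ Good4 σ s m0 b) : ℝ))) := by exact_mod_cast h2
  have b1 := bad1 ht h10 h11 H1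
  have b2 := bad2 (K := K) hm h20 h21 H2
  have b3 := bad3 (a := a) hm h30 h31 H3
  have b4 := bad4 (b := b) hm h40 H4
  have h4 : (cnt G : ℝ) + (cnt (fun σ => ¬ G σ) : ℝ) = Tot n := by
    rw [Tot]; exact_mod_cast cnt_compl G
  rw [le_div_iff₀ Tot_pos]
  nlinarith [Tot_pos (n := n)]

end Q43.Ko
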